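import Pool.Agent.U289.NX.Main

/-! Iterates of affine maps: clusters of times near most members of every array. -/

set_option autoImplicit false

namespace Pool.Agent.U289.NX

open Finset Filter
open Pool.Agent.U289.KT (U ev_ge L Lab choose_one)

/-- the sum of the powers -/
def bt (a t : ℕ) : ℤ := ∑ i ∈ range t, (a : ℤ) ^ i

/-- the `t`-th iterate of `z ↦ a z + b` -/
def fO (a : ℕ) (b : ℤ) (t : ℕ) : ℤ × ℤ := ((a : ℤ) ^ t, b * bt a t)

theorem bt_add (a s t : ℕ) : bt a (s + t) = bt a t + (a : ℤ) ^ t * bt a s := by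
  unfold bt
  rw [add_comm s t, sum_range_add]
  rw [mul_sum]
  congr 1
  exact sum_congr rfl fun i _ => pow_add _ _ _

theorem bt_succ (a t : ℕ) : bt a (t + 1) = a * bt a t + 1 := by
  have h := bt_add a t 1
  rw [h]
  unfold bt
  simp
  ring

theorem bt_mul (a t : ℕ) : ((a : ℤ) - 1) * bt a t = (a : ℤ) ^ t - 1 := by
  induction t with
  | zero => simp [bt]
  | succ t ih =>
    rw [bt_succ, pow_succ]
    linear_combination (a : ℤ) * ih

theorem fO_val (a : ℕ) (b : ℤ) (t : ℕ) (n : ℤ) :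
    (fO a b t).1 * n + (fO a b t).2 = (fun z : ℤ => a * z + b)^[t] n := by
  induction t with
  | zero => simp [fO, bt]
  | succ t ih =>
    rw [Function.iterate_succ_apply', ← ih]
    simp only [fO]
    rw [bt_succ, pow_succ]
    ring

theorem fO_comp (a : ℕ) (b : ℤ) (s t : ℕ) : comp (fO a b s) (fO a b t) = fO a b (s + t) := by
  simp only [comp, fO]
  refine Prod.ext ?_ ?_
  · simp only
    rw [pow_add]
    ring
  · simp only
    rw [bt_add]
    ring

theorem fO_inj {a : ℕ} (ha : 2 ≤ a) (b : ℤ) {s t : ℕ} (h : fO a b s = fO a b t) : s = t := by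
  have h1 : (a : ℤ) ^ s = (a : ℤ) ^ t := congrArg Prod.fst h
  have h2 : a ^ s = a ^ t := by exact_mod_cast h1
  exact Nat.pow_right_injective ha h2

theorem fO_prim {a : ℕ} (ha : 2 ≤ a) {b : ℤ} (hab : IsCoprime (a : ℤ) b) (t : ℕ) :
    0 < (fO a b t).1 ∧ IsCoprime (fO a b t).1 (fO a b t).2 := by
  have ha0 : (0 : ℤ) < a := by exact_mod_cast (by omega : 0 < a)
  refine ⟨pow_pos ha0 t, ?_⟩
  simp only [fO]
  cases t with
  | zero =>
    rw [pow_zero]
    exact isCoprime_one_left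
  | succ t =>
    refine IsCoprime.pow_left (hab.mul_right ?_)
    rw [bt_succ]
    exact ⟨- bt a t, 1, by ring⟩

theorem bt_mod {p a : ℕ} (h : (p : ℤ) ∣ (a : ℤ) - 1) (t : ℕ) : (p : ℤ) ∣ bt a t - t := by
  induction t with
  | zero => simp [bt]
  | succ t ih =>
    rw [bt_succ]
    have e : (a : ℤ) * bt a t + 1 - ((t + 1 : ℕ) : ℤ) = ((a : ℤ) - 1) * bt a t + (bt a t - t) := by
      push_cast; ring
    rw [e]
    exact dvd_add (h.mul_right _) ih

/-- the local condition -/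
theorem orb_adm {a : ℕ} {b : ℤ} (hab : IsCoprime (a : ℤ) b) {q : ℕ} (hq : 1 ≤ q)
    {τ : ℕ → ℕ} (hτ : Function.Injective τ) (v : ℕ → ℕ) (hv : ∀ s, (a - 1) ∣ v s) (ha : 2 ≤ a)
    (Λ : Finset ℕ) (p : ℕ) (hp : p.Prime) : ∃ ρ : ℤ, ∀ᶠ j in (U : Filter ℕ), ∀ s ∈ Λ,
    ¬ (p : ℤ) ∣ (fO a b (q * (τ j + v s))).1 * ρ + (fO a b (q * (τ j + v s))).2 := by
  have hpp := Nat.prime_iff_prime_int.1 hp
  have hp1 : ¬ (p : ℤ) ∣ 1 := fun h => hpp.not_isUnit (isUnit_of_dvd_one h)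
  have hτ1 : ∀ᶠ j in (U : Filter ℕ), 1 ≤ τ j := by
    refine Nat.hyperfilter_le_atTop ?_
    by_cases h : ∃ j0, τ j0 = 0
    · obtain ⟨j0, hj0⟩ := h
      filter_upwards [eventually_gt_atTop j0] with j hj
      by_contra h2
      have : τ j = τ j0 := by omega
      exact hj.ne' (hτ this)
    · push Not at h
      exact Filter.Eventually.of_forall fun j => Nat.one_le_iff_ne_zero.2 (h j)
  by_cases hpa : (p : ℤ) ∣ a
  · -- `p ∣ a`
    have hpb : ¬ (p : ℤ) ∣ b := fun h => hpp.not_isUnit (hab.isUnit_of_dvd' hpa h)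
    refine ⟨0, ?_⟩
    filter_upwards [hτ1] with j hj s _ hd
    have ht : 1 ≤ q * (τ j + v s) := Nat.mul_pos hq (by omega)
    obtain ⟨t, ht'⟩ : ∃ t, q * (τ j + v s) = t + 1 := ⟨q * (τ j + v s) - 1, by omega⟩
    rw [ht'] at hd
    simp only [fO, mul_zero, zero_add] at hd
    rw [bt_succ] at hd
    have e : b * (a * bt a t + 1) = a * (b * bt a t) + b := by ring
    rw [e] at hd
    exact hpb ((dvd_add_right (hpa.mul_right _)).1 hd)
  · have hpat : ∀ t, ¬ (p : ℤ) ∣ (a : ℤ) ^ t := fun t h => hpa (hpp.dvd_of_dvd_pow h)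
    by_cases hpb : (p : ℤ) ∣ b
    · refine ⟨1, Filter.Eventually.of_forall fun j s _ hd => ?_⟩
      simp only [fO, mul_one] at hd
      exact hpat _ ((dvd_add_left (hpb.mul_right _)).1 hd)
    · by_cases hpa1 : (p : ℤ) ∣ (a : ℤ) - 1
      · -- the translation modulo `p`
        obtain ⟨c, hc⟩ := choose_one (α := Fin p) (fun c j => τ j % p = (c : ℕ))
          (Filter.Eventually.of_forall fun j => ⟨⟨τ j % p, Nat.mod_lt _ hp.pos⟩, rfl⟩)
        refine ⟨1 - b * q * ((c : ℕ) : ℤ), ?_⟩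
        filter_upwards [hc] with j hj s _ hd
        simp only [fO] at hd
        have h1 := bt_mod hpa1 (q * (τ j + v s))
        have h2 : (p : ℤ) ∣ (a : ℤ) ^ (q * (τ j + v s)) - 1 := by
          rw [← bt_mul]
          exact hpa1.mul_right _
        have h3 : (p : ℤ) ∣ (v s : ℤ) := by
          have h4 : ((a - 1 : ℕ) : ℤ) ∣ (v s : ℤ) := by exact_mod_cast hv s
          refine dvd_trans ?_ h4
          rw [Nat.cast_sub (by omega : 1 ≤ a)]
          exact_mod_cast hpa1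
        have h4 : (p : ℤ) ∣ (τ j : ℤ) - ((c : ℕ) : ℤ) := by
          rw [← hj]
          have := Nat.div_add_mod (τ j) p
          have e : (τ j : ℤ) - ((τ j % p : ℕ) : ℤ) = p * ((τ j / p : ℕ) : ℤ) := by
            have h5 : (τ j : ℤ) = p * ((τ j / p : ℕ) : ℤ) + ((τ j % p : ℕ) : ℤ) := by exact_mod_cast this.symm
            linarith
          rw [e]
          exact dvd_mul_right _ _
        apply hp1
        have e : (1 : ℤ) = ((a : ℤ) ^ (q * (τ j + v s)) * (1 - b * q * ((c : ℕ) : ℤ)) + b * bt a (q * (τ j + v s)))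
            - ((a : ℤ) ^ (q * (τ j + v s)) - 1) * (1 - b * q * ((c : ℕ) : ℤ))
            - b * (bt a (q * (τ j + v s)) - ((q * (τ j + v s) : ℕ) : ℤ))
            - b * q * ((τ j : ℤ) - ((c : ℕ) : ℤ)) - b * q * (v s : ℤ) := by
          push_cast
          ring
        rw [e]
        exact dvd_sub (dvd_sub (dvd_sub (dvd_sub hd (h2.mul_right _)) (h1.mul_left _)) (h4.mul_left _))
          (h3.mul_left _)
      · -- the fixed point
        have hcop : IsCoprime ((a : ℤ) - 1) (p : ℤ) :=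
          (isCoprime_comm.1 ((Prime.coprime_iff_not_dvd hpp).2 hpa1))
        obtain ⟨x, y, hxy⟩ := hcop
        refine ⟨- b * x, Filter.Eventually.of_forall fun j s _ hd => ?_⟩
        simp only [fO] at hd
        have h1 := bt_mul a (q * (τ j + v s))
        have h2 := hd.mul_left ((a : ℤ) - 1)
        have e : ((a : ℤ) - 1) * ((a : ℤ) ^ (q * (τ j + v s)) * (- b * x) + b * bt a (q * (τ j + v s))) =
            p * (b * y * (a : ℤ) ^ (q * (τ j + v s))) - b := by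
          linear_combination b * h1 - b * (a : ℤ) ^ (q * (τ j + v s)) * hxy
        rw [e] at h2
        exact hpb ((dvd_sub_right (dvd_mul_right _ _)).1 h2)

theorem sep_nat (D K : Finset ℕ) : ∃ g : ℕ, ∀ k ∈ K, g + k ∉ D := by
  obtain ⟨B, hB⟩ : ∃ B : ℕ, ∀ d ∈ D, d ≤ B := by
    obtain ⟨B, hB⟩ := D.bddAbove
    exact ⟨B, fun d hd => hB hd⟩
  refine ⟨B + 1, fun k hk h => ?_⟩
  have h1 := hB _ h
  omega

open Classical in
/-- the number of the integers `n`, `1 ≤ n ≤ N`, such that for each `m = n, n + d, …, n + (l - 1) d` exactly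
those of the iterates at the times `t_j` with `j ∈ J` are prime, and the iterates at the times `u ≤ B` not
divisible by `q` are not prime -/
noncomputable def startsO (a : ℕ) (b : ℤ) (q : ℕ) {k : ℕ} (t : Fin k → ℕ) (J : Finset (Fin k))
    (B l d N : ℕ) : ℕ :=
  ((Icc 1 N).filter (fun n : ℕ => ∀ i < l,
    (∀ j : Fin k, ((fun z : ℤ => a * z + b)^[t j] ((n + i * d : ℕ) : ℤ)).toNat.Prime ↔ j ∈ J) ∧
    ∀ u : ℕ, u ≤ B → ¬ q ∣ u → ¬ ((fun z : ℤ => a * z + b)^[u] ((n + i * d : ℕ) : ℤ)).toNat.Prime)).card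

/-- all the vectors in `𝓗` are good at common scales -/
def GoodO (a : ℕ) (b : ℤ) (q : ℕ) {k : ℕ} (𝓗 : Set (Fin k → ℕ)) : Prop :=
  ∀ l B : ℕ, ∃ C : ℕ, ∃ᶠ N : ℕ in atTop, ∀ t ∈ 𝓗, ∀ J : Finset (Fin k),
    ∃ d : ℕ, 1 ≤ d ∧ (d : ℝ) ≤ (Real.log N) ^ C ∧
      (N : ℝ) / (Real.log N) ^ C ≤ (startsO a b q t J B l d N : ℝ)

/-- **iterates** -/
theorem orb (a : ℕ) (b : ℤ) (ha : 2 ≤ a) (hab : IsCoprime (a : ℤ) b) (q : ℕ) (hq : 1 ≤ q)
    (τ : ℕ → ℕ) (hτ : Function.Injective τ)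
    (ε : ℝ) (hε : 0 < ε) (hε1 : ε < 1) (k m : ℕ → ℕ) (hk : ∀ j, 1 ≤ k j) (hm : ∀ j, 1 ≤ m j) :
    ∃ C : ℕ → ℕ, ∀ (V : ℕ → ℕ → ℕ) (μ : ℕ → ℕ → ℝ) (T : ℕ → ℕ), (∀ t j, 0 ≤ μ t j) →
      (∀ t, ∑ j ∈ range (T t), μ t j = 1) →
      ∃ (S : Set ℕ) (J : ℕ → ℕ), StrictMono J ∧
        (∃ᶠ t in atTop, 1 - ε ≤ ∑ j ∈ range (T t), μ t j *
          ind (∃ R ⊆ range (k j), (1 - ε) * k j ≤ R.card ∧ ∀ i ∈ R,
            m j ≤ (S ∩ Set.Icc (V j i) (V j i + C j)).ncard)) ∧
        ∀ (n c : ℕ) (i : Fin n → ℕ), StrictMono i → (∀ t, n ≤ i t ∧ c ≤ i t) →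
          GoodO a b q {h : Fin n → ℕ | ∃ s : Fin n → ℕ, (∀ t, s t ∈ S ∧ s t ≤ c) ∧
            ∀ t, h t = q * (τ (J (i t)) + s t)} := by
  classical
  have hτev : ∀ z : ℕ, ∀ᶠ j in atTop, τ j ≠ z := by
    intro z
    by_cases h : ∃ j0, τ j0 = z
    · obtain ⟨j0, hj0⟩ := h
      filter_upwards [eventually_gt_atTop j0] with j hj h2
      rw [← hj0] at h2
      exact hj.ne' (hτ h2)
    · exact Filter.Eventually.of_forall fun j hj => h ⟨j, hj⟩
  have hinj : ∀ (j s s' : ℕ), ∀ᶠ j' in atTop, fO a b (q * (τ j' + s')) ≠ fO a b (q * (τ j + s)) := by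
    intro j s s'
    filter_upwards [hτev (τ j + s - s')] with j' hj' he
    have h1 := Nat.eq_of_mul_eq_mul_left hq (fO_inj ha b he)
    omega
  set F : ℕ → ℕ → ℤ × ℤ := fun j s => fO a b (q * (τ j + s)) with hF
  set 𝒪 : Set (ℤ × ℤ) := {f | ∃ u : ℕ, ¬ q ∣ u ∧ f = fO a b u} with h𝒪
  obtain ⟨C0, hC0⟩ := main_abs (M := ℕ) (op := fun a b => a + b) (fun a b c => add_assoc a b c) sep_nat
    (𝒪 := 𝒪) (F := F)
    (fun c => fO a b (q * c)) (fun c => (fO_prim ha hab (q * c)).1)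
    (by
      rintro c _ ⟨u, hu, rfl⟩
      refine ⟨q * c + u, fun h => hu ((Nat.dvd_add_right (dvd_mul_right q c)).1 h), ?_⟩
      rw [fO_comp])
    (fun c v => Filter.Eventually.of_forall fun j => by
      simp only [hF]
      rw [fO_comp]
      congr 1
      ring)
    (fun t => range (a - 1))
    (by
      intro pos
      have ha1 : 0 < a - 1 := by omega
      have hκ : ∀ t, ∃ κ, κ < a - 1 ∧ (a - 1) ∣ pos t + κ := by
        intro t
        have h1 := Nat.mod_lt (pos t) ha1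
        have h2 := Nat.div_add_mod (pos t) (a - 1)
        rcases Nat.eq_zero_or_pos (pos t % (a - 1)) with h0 | h0
        · exact ⟨0, ha1, Nat.dvd_of_mod_eq_zero h0⟩
        · refine ⟨a - 1 - pos t % (a - 1), by omega, pos t / (a - 1) + 1, ?_⟩
          rw [mul_add, mul_one]
          omega
      choose κ hκ1 hκ2 using hκ
      refine ⟨κ, fun t => mem_range.2 (hκ1 t), ⟨?_, ?_, ?_⟩, ?_, ?_⟩
      · intro s
        exact Filter.Eventually.of_forall fun j => fO_prim ha hab _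
      · intro j s s'
        exact Nat.hyperfilter_le_atTop (hinj j _ _)
      · intro Λ p hp
        exact orb_adm hab hq hτ (fun s => pos s + κ s) hκ2 ha Λ p hp
      · rintro _ ⟨u, -, rfl⟩
        exact fO_prim ha hab u
      · intro s
        refine Filter.Eventually.of_forall fun j => ?_
        rintro ⟨u, hu, he⟩
        apply hu
        rw [← fO_inj ha b he]
        exact dvd_mul_right _ _)
    ε hε hε1 k m hk hm
  refine ⟨fun j => (C0 j).sup id, fun V μ T hμ hμ1 => ?_⟩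
  obtain ⟨S, hS, hfreq⟩ := hC0 V μ T hμ hμ1
  obtain ⟨J, hJ, hJg⟩ := extract (F := F) (fun j a a' => Nat.hyperfilter_le_atTop (hinj j a a')) hS
    (fun n => range (n + 1))
  refine ⟨S, J, hJ, hfreq.mono fun t ht => ht.trans (sum_le_sum fun j _ =>
    mul_le_mul_of_nonneg_left (ind_mono ?_) (hμ t j)), ?_⟩
  · rintro ⟨R, hR, hRk, hRi⟩
    refine ⟨R, hR, hRk, fun i hi => ?_⟩
    obtain ⟨E, hE, hEm, hES⟩ := hRi i hi
    rw [← hEm]
    have h1 : ((E.image (fun c => V j i + c) : Finset ℕ) : Set ℕ) ⊆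
        S ∩ Set.Icc (V j i) (V j i + (C0 j).sup id) := by
      intro y hy
      obtain ⟨c, hc, rfl⟩ := mem_image.1 (mem_coe.1 hy)
      have h2 : c ≤ (C0 j).sup id := Finset.le_sup (f := id) (hE hc)
      exact ⟨hES c hc, Nat.le_add_right _ _, Nat.add_le_add_left h2 _⟩
    have h2 := Set.ncard_le_ncard h1 ((Set.finite_Icc _ _).subset Set.inter_subset_right)
    rw [Set.ncard_coe_finset, card_image_of_injective _ (add_right_injective _)] at h2
    exact h2
  · intro n c i hi hnc l B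
    obtain ⟨C, hC⟩ := hJg ((range (c + 1)).filter (fun a => a ∈ S)) (fun a ha => (mem_filter.1 ha).2) n i hi
      (fun t => ⟨(hnc t).1, (filter_subset _ _).trans (range_mono (by have := (hnc t).2; omega))⟩) l
        (((range (B + 1)).filter (fun u => ¬ q ∣ u)).image (fO a b))
        (by
          intro f hf
          obtain ⟨u, hu, rfl⟩ := mem_image.1 hf
          exact ⟨u, (mem_filter.1 hu).2, rfl⟩)
    refine ⟨C, hC.mono fun N hN v hv Jf => ?_⟩
    obtain ⟨s, hs, hv⟩ := hv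
    obtain ⟨d, hd1, hd2, hd3⟩ := hN (fun t => fO a b (v t))
      ⟨s, fun t => mem_filter.2 ⟨mem_range.2 (by have := (hs t).2; omega), (hs t).1⟩, fun t => by
        simp only [hF, hv t]⟩ Jf
    refine ⟨d, hd1, hd2, hd3.trans ?_⟩
    rw [Nat.cast_le]
    unfold startsE startsO
    apply card_le_card
    intro n' hn'
    rw [mem_filter] at hn' ⊢
    refine ⟨hn'.1, fun i' hi' => ?_⟩
    obtain ⟨h1, h2⟩ := hn'.2 i' hi'
    refine ⟨fun j => ?_, fun u hu hqu => ?_⟩
    · have h3 := h1 j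
      rw [fO_val] at h3
      exact h3
    · have h3 := h2 _ (mem_image.2 ⟨u, mem_filter.2 ⟨mem_range.2 (by omega), hqu⟩, rfl⟩)
      rw [fO_val] at h3
      exact h3

end Pool.Agent.U289.NX
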