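import Pool.Agent.U289.NX.Main
import Pool.Agent.U289.KT.Shifts

/-! Translations: clusters of shifts near most points of every array. -/

set_option autoImplicit false

namespace Pool.Agent.U289.NX

open Finset Filter
open Pool.Agent.U289.KT (U ev_ge L Lab shift_lab)

theorem sep_int (D K : Finset ℤ) : ∃ g : ℤ, ∀ k ∈ K, g + k ∉ D := by
  obtain ⟨B, hB⟩ : ∃ B : ℤ, ∀ d ∈ D, d ≤ B := by
    obtain ⟨B, hB⟩ := D.bddAbove
    exact ⟨B, fun d hd => hB hd⟩
  obtain ⟨B', hB'⟩ : ∃ B : ℤ, ∀ d ∈ K, B ≤ d := by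
    obtain ⟨B, hB⟩ := K.bddBelow
    exact ⟨B, fun d hd => hB hd⟩
  refine ⟨B - B' + 1, fun k hk h => ?_⟩
  have h1 := hB _ h
  have h2 := hB' _ hk
  omega

/-- the residues of the windows -/
theorem miss_class {p : ℕ} (hp : p.Prime) (v : ℕ → ℤ) (hv : ∀ t, ((t + 3).factorial : ℤ) ∣ v t) (x : ℤ) (R : Finset ℕ) :
    ∃ c : ℤ, ∀ a ∈ R, ¬ (p : ℤ) ∣ (x + v a) - c := by
  classical
  have : Fact p.Prime := ⟨hp⟩
  have hp2 := hp.two_le
  set E : Finset (ZMod p) := insert ((x : ℤ) : ZMod p) ((range (p - 3)).image (fun t => (((x + v t : ℤ)) : ZMod p))) with hE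
  have h1 : E.card < (univ : Finset (ZMod p)).card := by
    rw [card_univ, ZMod.card]
    have h2 : E.card ≤ ((range (p - 3)).image (fun t => (((x + v t : ℤ)) : ZMod p))).card + 1 :=
      card_insert_le _ _
    have h3 : ((range (p - 3)).image (fun t => (((x + v t : ℤ)) : ZMod p))).card ≤ p - 3 := by
      refine card_image_le.trans ?_
      rw [card_range]
    omega
  obtain ⟨z, -, hz⟩ := exists_mem_notMem_of_card_lt_card h1
  refine ⟨(z.val : ℤ), fun t _ hd => hz ?_⟩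
  have h2 := (ZMod.intCast_zmod_eq_zero_iff_dvd ((x + v t) - (z.val : ℤ)) p).2 hd
  push_cast at h2
  rw [ZMod.natCast_zmod_val, sub_eq_zero] at h2
  by_cases ht : t < p - 3
  · refine mem_insert_of_mem (mem_image.2 ⟨t, mem_range.2 ht, ?_⟩)
    push_cast
    exact h2
  · have h3 : (p : ℤ) ∣ v t := by
      refine dvd_trans ?_ (hv t)
      exact_mod_cast Nat.dvd_factorial hp.pos (by omega)
    have h4 := (ZMod.intCast_zmod_eq_zero_iff_dvd (v t) p).2 h3
    rw [h4, add_zero] at h2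
    rw [← h2]
    exact mem_insert_self _ _

open Classical in
/-- the number of the integers `n`, `1 ≤ n ≤ N`, such that for each `m = n, n + d, …, n + (l - 1) d` exactly
those of the numbers `q (m + h_j) + r` with `j ∈ J` are prime, and no `q (m + u) + r` with `|u| ≤ B`, `u` not
congruent to `c` modulo `w`, is prime -/
noncomputable def startsW (q : ℕ) (r : ℤ) (w : ℕ) (c : ℤ) {k : ℕ} (h : Fin k → ℤ) (J : Finset (Fin k))
    (B l d N : ℕ) : ℕ :=
  ((Icc 1 N).filter (fun n : ℕ => ∀ i < l,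
    (∀ j : Fin k, ((q : ℤ) * (((n + i * d : ℕ) : ℤ) + h j) + r).toNat.Prime ↔ j ∈ J) ∧
    ∀ u : ℤ, |u| ≤ B → ¬ (w : ℤ) ∣ u - c → ¬ ((q : ℤ) * (((n + i * d : ℕ) : ℤ) + u) + r).toNat.Prime)).card

/-- all the vectors in `𝓗` are good at common scales -/
def GoodW (q : ℕ) (r : ℤ) (w : ℕ) (c : ℤ) {k : ℕ} (𝓗 : Set (Fin k → ℤ)) : Prop :=
  ∀ l B : ℕ, ∃ C : ℕ, ∃ᶠ N : ℕ in atTop, ∀ h ∈ 𝓗, ∀ J : Finset (Fin k),
    ∃ d : ℕ, 1 ≤ d ∧ (d : ℝ) ≤ (Real.log N) ^ C ∧
      (N : ℝ) / (Real.log N) ^ C ≤ (startsW q r w c h J B l d N : ℝ)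

/-- **translations** -/
theorem tra (q : ℕ) (r : ℤ) (hq : 1 ≤ q) (hqr : IsCoprime r (q : ℤ)) (w : ℕ) (hw : 1 ≤ w) (c : ℤ)
    (x : ℕ → ℤ) (hx : Function.Injective x) (hxw : ∀ j, (w : ℤ) ∣ x j - c)
    (ε : ℝ) (hε : 0 < ε) (hε1 : ε < 1) (k m : ℕ → ℕ) (hk : ∀ j, 1 ≤ k j) (hm : ∀ j, 1 ≤ m j) :
    ∃ C : ℕ → ℕ, ∀ (V : ℕ → ℕ → ℤ) (μ : ℕ → ℕ → ℝ) (T : ℕ → ℕ), (∀ t j, 0 ≤ μ t j) →
      (∀ t, ∑ j ∈ range (T t), μ t j = 1) →
      ∃ (S : Set ℤ) (J : ℕ → ℕ), (∀ s ∈ S, (w : ℤ) ∣ s) ∧ StrictMono J ∧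
        (∃ᶠ t in atTop, 1 - ε ≤ ∑ j ∈ range (T t), μ t j *
          ind (∃ R ⊆ range (k j), (1 - ε) * k j ≤ R.card ∧ ∀ i ∈ R,
            m j ≤ (S ∩ Set.Icc (V j i) (V j i + C j)).ncard)) ∧
        ∀ (n b : ℕ) (i : Fin n → ℕ), StrictMono i → (∀ t, n ≤ i t ∧ b ≤ i t) →
          GoodW q r w c {h : Fin n → ℤ | ∃ s : Fin n → ℤ, (∀ t, s t ∈ S ∧ |s t| ≤ b) ∧
            ∀ t, h t = x (J (i t)) + s t} := by
  classical
  have hq0 : (0 : ℤ) < q := by exact_mod_cast hq
  have hw0 : (0 : ℤ) < w := by exact_mod_cast hw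
  have hxev : ∀ y : ℤ, ∀ᶠ j in atTop, x j ≠ y := by
    intro y
    by_cases h : ∃ j0, x j0 = y
    · obtain ⟨j0, hj0⟩ := h
      filter_upwards [eventually_gt_atTop j0] with j hj h2
      rw [← hj0] at h2
      exact hj.ne' (hx h2)
    · exact Filter.Eventually.of_forall fun j hj => h ⟨j, hj⟩
  set F : ℕ → ℤ → ℤ × ℤ := fun j v => ((q : ℤ), r + q * (x j + w * v)) with hF
  set 𝒪 : Set (ℤ × ℤ) := {f | ∃ u : ℤ, ¬ (w : ℤ) ∣ u - c ∧ f = ((q : ℤ), r + q * u)} with h𝒪
  have hcop : ∀ y : ℤ, IsCoprime (q : ℤ) (r + q * y) := fun y => (IsCoprime.add_mul_left_left hqr y).symm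
  obtain ⟨C0, hC0⟩ := main_abs (M := ℤ) (op := fun a b => a + b) (fun a b c => add_assoc a b c) sep_int
    (𝒪 := 𝒪) (F := F)
    (fun c => (1, w * c)) (fun c => le_rfl)
    (by
      rintro c' _ ⟨u, hu, rfl⟩
      refine ⟨u + w * c', fun h => hu ?_, ?_⟩
      · have e : u - c = (u + w * c' - c) - w * c' := by ring
        rw [e]
        exact dvd_sub h (dvd_mul_right _ _)
      · simp only [comp]
        refine Prod.ext ?_ ?_
        · simp
        · simp only
          ring)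
    (fun c y => Filter.Eventually.of_forall fun j => by
      simp only [hF, comp]
      refine Prod.ext ?_ ?_
      · simp
      · simp only
        ring)
    (fun t => (Ico (0 : ℤ) ((t + 3).factorial : ℤ)))
    (by
      intro pos
      have hf : ∀ t : ℕ, (0 : ℤ) < ((t + 3).factorial : ℤ) := fun t => by exact_mod_cast Nat.factorial_pos _
      refine ⟨fun t => (- pos t) % ((t + 3).factorial : ℤ), fun t => mem_Ico.2
        ⟨Int.emod_nonneg _ (hf t).ne', Int.emod_lt_of_pos _ (hf t)⟩, ?_, ?_, ?_⟩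
      · have hv : ∀ t, ((t + 3).factorial : ℤ) ∣ (w : ℤ) * (pos t + (- pos t) % ((t + 3).factorial : ℤ)) := by
          intro t
          have h1 : ((t + 3).factorial : ℤ) ∣ (- pos t) - (- pos t) % ((t + 3).factorial : ℤ) := Int.dvd_self_sub_emod
          have e : pos t + (- pos t) % ((t + 3).factorial : ℤ) =
              - ((- pos t) - (- pos t) % ((t + 3).factorial : ℤ)) := by ring
          rw [e]
          exact Dvd.dvd.mul_left ((dvd_neg).2 h1) _
        exact shift_lab q r hq hqr (fun j t => x j + w * (pos t + (- pos t) % ((t + 3).factorial : ℤ)))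
          (fun j a a' => by
            filter_upwards [hxev (x j + w * (pos a + (- pos a) % ((a + 3).factorial : ℤ)) -
              w * (pos a' + (- pos a') % ((a' + 3).factorial : ℤ)))] with j' hj' he
            exact hj' (by linarith))
          (fun R p hp _ _ => Filter.Eventually.of_forall fun j =>
            miss_class hp (fun t => w * (pos t + (- pos t) % ((t + 3).factorial : ℤ))) hv (x j) R)
      · rintro _ ⟨u, -, rfl⟩
        exact ⟨hq0, hcop u⟩
      · intro a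
        refine Filter.Eventually.of_forall fun j => ?_
        rintro ⟨u, hu, he⟩
        have h1 : r + q * (x j + w * (pos a + (- pos a) % ((a + 3).factorial : ℤ))) = r + q * u :=
          congrArg Prod.snd he
        have h2 : x j + w * (pos a + (- pos a) % ((a + 3).factorial : ℤ)) = u :=
          mul_left_cancel₀ hq0.ne' (by linarith)
        apply hu
        rw [← h2]
        have e : x j + w * (pos a + (- pos a) % ((a + 3).factorial : ℤ)) - c =
          (x j - c) + w * (pos a + (- pos a) % ((a + 3).factorial : ℤ)) := by ring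
        rw [e]
        exact dvd_add (hxw j) (dvd_mul_right _ _))
    ε hε hε1 k m hk hm
  -- the windows are intervals
  have hB : ∀ j, ∃ B : ℕ, ∀ c ∈ C0 j, -(B : ℤ) ≤ c ∧ c ≤ B := by
    intro j
    refine ⟨(C0 j).sup Int.natAbs, fun c hc => ?_⟩
    have h1 : c.natAbs ≤ (C0 j).sup Int.natAbs := Finset.le_sup hc
    omega
  choose B hB using hB
  refine ⟨fun j => w * (2 * B j + 1), fun V μ T hμ hμ1 => ?_⟩
  obtain ⟨S, hS, hfreq⟩ := hC0 (fun j i => -((- V j i) / (w : ℤ)) + B j) μ T hμ hμ1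
  obtain ⟨J, hJ, hJg⟩ := extract (F := F) (fun j a a' => by
    refine Nat.hyperfilter_le_atTop ?_
    filter_upwards [hxev (x j + w * a - w * a')] with j' hj' he
    have h1 : r + q * (x j' + w * a') = r + q * (x j + w * a) := congrArg Prod.snd he
    have h2 : x j' + w * a' = x j + w * a := mul_left_cancel₀ hq0.ne' (by linarith)
    exact hj' (by linarith)) hS (fun n => Icc (-(n : ℤ)) n)
  refine ⟨(fun v => (w : ℤ) * v) '' S, J, ?_, hJ, hfreq.mono fun t ht => ht.trans (sum_le_sum fun j _ =>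
    mul_le_mul_of_nonneg_left (ind_mono ?_) (hμ t j)), ?_⟩
  · rintro _ ⟨v, -, rfl⟩
    exact dvd_mul_right _ _
  · rintro ⟨R, hR, hRk, hRi⟩
    refine ⟨R, hR, hRk, fun i hi => ?_⟩
    obtain ⟨E, hE, hEm, hES⟩ := hRi i hi
    rw [← hEm]
    have hdiv1 := Int.emod_add_mul_ediv (- V j i) w
    have hdiv2 := Int.emod_nonneg (- V j i) hw0.ne'
    have hdiv3 := Int.emod_lt_of_pos (- V j i) hw0
    set Q : ℤ := (- V j i) / (w : ℤ) with hQ
    set ρ : ℤ := (- V j i) % (w : ℤ) with hρ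
    have h1 : ((E.image (fun c => (w : ℤ) * (- Q + B j + c)) : Finset ℤ) : Set ℤ) ⊆
        ((fun v => (w : ℤ) * v) '' S) ∩ Set.Icc (V j i) (V j i + ((w * (2 * B j + 1) : ℕ) : ℤ)) := by
      intro y hy
      obtain ⟨c, hc, rfl⟩ := mem_image.1 (mem_coe.1 hy)
      obtain ⟨h2, h3⟩ := hB j c (hE hc)
      have h4 : 0 ≤ (w : ℤ) * (B j + c) := mul_nonneg hw0.le (by linarith)
      have h5 : (w : ℤ) * (B j + c) ≤ w * (2 * B j) := mul_le_mul_of_nonneg_left (by linarith) hw0.le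
      have h6 : (w : ℤ) * (- Q + B j + c) = - (w * Q) + w * (B j + c) := by ring
      refine ⟨⟨_, hES c hc, rfl⟩, ?_, ?_⟩
      · rw [h6]
        linarith
      · rw [h6]
        push_cast
        have h7 : (w : ℤ) * (2 * B j + 1) = w * (2 * B j) + w := by ring
        linarith
    have h2 := Set.ncard_le_ncard h1 ((Set.finite_Icc _ _).subset Set.inter_subset_right)
    rw [Set.ncard_coe_finset, card_image_of_injective _ (fun a b hab => by
      have := mul_left_cancel₀ hw0.ne' hab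
      linarith)] at h2
    exact h2
  · intro n b i hi hnb l B'
    have hsub : ∀ s : ℤ, |(w : ℤ) * s| ≤ b → s ∈ Icc (-(b : ℤ)) b := by
      intro s hs
      rw [abs_mul, abs_of_pos hw0] at hs
      have h1 : |s| ≤ w * |s| := le_mul_of_one_le_left (abs_nonneg s) (by linarith)
      exact mem_Icc.2 (abs_le.1 (h1.trans hs))
    obtain ⟨C, hC⟩ := hJg ((Icc (-(b : ℤ)) b).filter (fun a => a ∈ S)) (fun a ha => (mem_filter.1 ha).2) n i hi
      (fun t => ⟨(hnb t).1, (filter_subset _ _).trans (Icc_subset_Icc (by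
        have h1 := (hnb t).2
        have h2 : (b : ℤ) ≤ i t := by exact_mod_cast h1
        linarith) (by exact_mod_cast (hnb t).2))⟩) l
        (((Icc (-(B' : ℤ)) B').filter (fun u => ¬ (w : ℤ) ∣ u - c)).image (fun u => ((q : ℤ), r + q * u)))
        (by
          intro f hf
          obtain ⟨u, hu, rfl⟩ := mem_image.1 hf
          exact ⟨u, (mem_filter.1 hu).2, rfl⟩)
    refine ⟨C, hC.mono fun N hN v hv Jf => ?_⟩
    obtain ⟨s, hs, hv⟩ := hv
    have hs1 : ∀ t, ∃ y ∈ S, (w : ℤ) * y = s t := fun t => (hs t).1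
    choose y hy1 hy2 using hs1
    obtain ⟨d, hd1, hd2, hd3⟩ := hN (fun t => ((q : ℤ), r + q * v t))
      ⟨y, fun t => mem_filter.2 ⟨hsub _ (by rw [hy2]; exact (hs t).2), hy1 t⟩, fun t => by
        simp only [hF, hv t, hy2]⟩ Jf
    refine ⟨d, hd1, hd2, hd3.trans ?_⟩
    rw [Nat.cast_le]
    unfold startsE startsW
    apply card_le_card
    intro n' hn'
    rw [mem_filter] at hn' ⊢
    refine ⟨hn'.1, fun i' hi' => ?_⟩
    obtain ⟨h1, h2⟩ := hn'.2 i' hi'
    have e : ∀ z : ℤ, (q : ℤ) * (((n' + i' * d : ℕ) : ℤ) + z) + r =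
        (q : ℤ) * ((n' + i' * d : ℕ) : ℤ) + (r + q * z) := fun z => by ring
    refine ⟨fun j => ?_, fun u hu huc => ?_⟩
    · rw [e]
      exact h1 j
    · rw [e]
      exact h2 _ (mem_image.2 ⟨u, mem_filter.2 ⟨mem_Icc.2 (abs_le.1 hu), huc⟩, rfl⟩)

end Pool.Agent.U289.NX
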