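import Pool.Agent.U289.NX.Main

/-! Dilations: many multiples, with bounded factors, of most members of every array. -/

set_option autoImplicit false

namespace Pool.Agent.U289.NX

open Finset Filter
open Pool.Agent.U289.KT (U ev_ge L Lab)

theorem sep_pnat (D K : Finset ℕ+) : ∃ g : ℕ+, ∀ k ∈ K, g * k ∉ D := by
  obtain ⟨B, hB⟩ : ∃ B : ℕ+, ∀ d ∈ D, d ≤ B := by
    obtain ⟨B, hB⟩ := D.bddAbove
    exact ⟨B, fun d hd => hB hd⟩
  refine ⟨B + 1, fun k _ h => ?_⟩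
  have h1 : B + 1 ≤ (B + 1) * k := le_mul_of_one_le_right' one_le
  have h2 := h1.trans (hB _ h)
  exact absurd h2 (not_le.2 (PNat.lt_add_right B 1))

open Classical in
/-- the number of the integers `n`, `1 ≤ n ≤ N`, such that for each `m = n, n + d, …, n + (l - 1) d` exactly
those of the numbers `a_j m + 1` with `j ∈ J` are prime, and no `u m - 1` with `1 ≤ u ≤ B` is prime -/
noncomputable def startsM {k : ℕ} (a : Fin k → ℕ) (J : Finset (Fin k)) (B l d N : ℕ) : ℕ :=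
  ((Icc 1 N).filter (fun n : ℕ => ∀ i < l, (∀ j : Fin k, (a j * (n + i * d) + 1).Prime ↔ j ∈ J) ∧
    ∀ u : ℕ, 1 ≤ u → u ≤ B → ¬ (u * (n + i * d) - 1).Prime)).card

/-- all the vectors in `𝓗` are good at common scales -/
def GoodM {k : ℕ} (𝓗 : Set (Fin k → ℕ)) : Prop :=
  ∀ l B : ℕ, ∃ C : ℕ, ∃ᶠ N : ℕ in atTop, ∀ a ∈ 𝓗, ∀ J : Finset (Fin k),
    ∃ d : ℕ, 1 ≤ d ∧ (d : ℝ) ≤ (Real.log N) ^ C ∧
      (N : ℝ) / (Real.log N) ^ C ≤ (startsM a J B l d N : ℝ)

/-- **dilations** -/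
theorem mul (y : ℕ → ℕ) (hy0 : ∀ j, 1 ≤ y j) (hy : Function.Injective y)
    (ε : ℝ) (hε : 0 < ε) (hε1 : ε < 1) (k m : ℕ → ℕ) (hk : ∀ j, 1 ≤ k j) (hm : ∀ j, 1 ≤ m j) :
    ∃ C : ℕ → ℕ, ∀ (V : ℕ → ℕ → ℕ) (_ : ∀ j i, 1 ≤ V j i) (μ : ℕ → ℕ → ℝ) (T : ℕ → ℕ), (∀ t j, 0 ≤ μ t j) →
      (∀ t, ∑ j ∈ range (T t), μ t j = 1) →
      ∃ (S : Set ℕ) (J : ℕ → ℕ), (∀ s ∈ S, 1 ≤ s) ∧ StrictMono J ∧
        (∃ᶠ t in atTop, 1 - ε ≤ ∑ j ∈ range (T t), μ t j *
          ind (∃ R ⊆ range (k j), (1 - ε) * k j ≤ R.card ∧ ∀ i ∈ R,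
            m j ≤ {f : ℕ | 1 ≤ f ∧ f ≤ C j ∧ V j i * f ∈ S}.ncard)) ∧
        ∀ (n b : ℕ) (i : Fin n → ℕ), StrictMono i → (∀ t, n ≤ i t ∧ b ≤ i t) →
          GoodM {h : Fin n → ℕ | ∃ s : Fin n → ℕ, (∀ t, s t ∈ S ∧ s t ≤ b) ∧
            ∀ t, h t = y (J (i t)) * s t} := by
  classical
  have hyev : ∀ z : ℕ, ∀ᶠ j in atTop, y j ≠ z := by
    intro z
    by_cases h : ∃ j0, y j0 = z
    · obtain ⟨j0, hj0⟩ := h
      filter_upwards [eventually_gt_atTop j0] with j hj h2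
      rw [← hj0] at h2
      exact hj.ne' (hy h2)
    · exact Filter.Eventually.of_forall fun j hj => h ⟨j, hj⟩
  have hyinj : ∀ (j : ℕ) (a a' : ℕ+), ∀ᶠ j' in atTop, ((y j' : ℤ) * ((a' : ℕ) : ℤ)) ≠ (y j : ℤ) * ((a : ℕ) : ℤ) := by
    intro j a a'
    filter_upwards [hyev (y j * a / a')] with j' hj' he
    apply hj'
    have h1 : y j' * (a' : ℕ) = y j * (a : ℕ) := by exact_mod_cast he
    rw [← h1]
    exact (Nat.mul_div_cancel _ a'.pos).symm
  set F : ℕ → ℕ+ → ℤ × ℤ := fun j v => ((y j : ℤ) * ((v : ℕ) : ℤ), 1) with hF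
  set 𝒪 : Set (ℤ × ℤ) := {f | ∃ u : ℕ, 1 ≤ u ∧ f = ((u : ℤ), -1)} with h𝒪
  obtain ⟨C0, hC0⟩ := main_abs (M := ℕ+) (op := fun a b => a * b) (fun a b c => mul_assoc a b c) sep_pnat
    (𝒪 := 𝒪) (F := F)
    (fun c => (((c : ℕ) : ℤ), 0)) (fun c => by show (1 : ℤ) ≤ ((c : ℕ) : ℤ); exact_mod_cast c.pos)
    (by
      rintro c _ ⟨u, hu, rfl⟩
      refine ⟨u * c, Nat.mul_pos hu c.pos, ?_⟩
      simp only [comp]
      refine Prod.ext ?_ ?_
      · push_cast
        ring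
      · simp)
    (fun c v => Filter.Eventually.of_forall fun j => by
      simp only [hF, comp]
      refine Prod.ext ?_ ?_
      · push_cast
        ring
      · simp)
    (fun t => {1})
    (by
      intro pos
      refine ⟨fun t => 1, fun t => mem_singleton_self 1, ⟨?_, ?_, ?_⟩, ?_, ?_⟩
      · intro a
        refine Filter.Eventually.of_forall fun j => ⟨?_, isCoprime_one_right⟩
        have h1 := hy0 j
        have h2 := (pos a * 1).pos
        simp only [hF]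
        have : (0 : ℤ) < y j := by exact_mod_cast h1
        have : (0 : ℤ) < ((pos a * 1 : ℕ+) : ℕ) := by exact_mod_cast h2
        positivity
      · intro j a a'
        refine Nat.hyperfilter_le_atTop ?_
        filter_upwards [hyinj j (pos a * 1) (pos a' * 1)] with j' hj' he
        exact hj' (congrArg Prod.fst he)
      · intro Λ p hp
        refine ⟨0, Filter.Eventually.of_forall fun j a _ hd => ?_⟩
        have e : (F j (pos a * 1)).1 * 0 + (F j (pos a * 1)).2 = 1 := by simp [hF]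
        simp only at hd
        rw [e] at hd
        exact (Nat.prime_iff_prime_int.1 hp).not_isUnit (isUnit_of_dvd_one hd)
      · rintro _ ⟨u, hu, rfl⟩
        refine ⟨by show (0 : ℤ) < u; exact_mod_cast hu, ?_⟩
        exact isCoprime_one_right.neg_right
      · intro a
        refine Filter.Eventually.of_forall fun j => ?_
        rintro ⟨u, hu, he⟩
        have h1 : (1 : ℤ) = -1 := congrArg Prod.snd he
        norm_num at h1)
    ε hε hε1 k m hk hm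
  refine ⟨fun j => (C0 j).sup (fun c => (c : ℕ)), fun V hV μ T hμ hμ1 => ?_⟩
  obtain ⟨S, hS, hfreq⟩ := hC0 (fun j i => ⟨V j i, hV j i⟩) μ T hμ hμ1
  obtain ⟨J, hJ, hJg⟩ := extract (F := F) (fun j a a' => by
    refine Nat.hyperfilter_le_atTop ?_
    filter_upwards [hyinj j a a'] with j' hj' he
    exact hj' (congrArg Prod.fst he)) hS (fun n => Icc 1 n.succPNat)
  refine ⟨(fun v : ℕ+ => (v : ℕ)) '' S, J, ?_, hJ, hfreq.mono fun t ht => ht.trans (sum_le_sum fun j _ =>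
    mul_le_mul_of_nonneg_left (ind_mono ?_) (hμ t j)), ?_⟩
  · rintro _ ⟨v, -, rfl⟩
    exact v.pos
  · rintro ⟨R, hR, hRk, hRi⟩
    refine ⟨R, hR, hRk, fun i hi => ?_⟩
    obtain ⟨E, hE, hEm, hES⟩ := hRi i hi
    rw [← hEm]
    have h1 : ((E.image (fun c : ℕ+ => (c : ℕ)) : Finset ℕ) : Set ℕ) ⊆
        {f : ℕ | 1 ≤ f ∧ f ≤ (C0 j).sup (fun c => (c : ℕ)) ∧ V j i * f ∈ (fun v : ℕ+ => (v : ℕ)) '' S} := by
      intro f hf
      obtain ⟨c, hc, rfl⟩ := mem_image.1 (mem_coe.1 hf)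
      refine ⟨c.pos, Finset.le_sup (f := fun c : ℕ+ => (c : ℕ)) (hE hc), _, hES c hc, ?_⟩
      rfl
    have h2 := Set.ncard_le_ncard h1 ((Set.finite_Icc 1 ((C0 j).sup (fun c => (c : ℕ)))).subset
      fun f hf => ⟨hf.1, hf.2.1⟩)
    rw [Set.ncard_coe_finset, card_image_of_injective _ PNat.coe_injective] at h2
    exact h2
  · intro n b i hi hnb l B
    obtain ⟨C, hC⟩ := hJg ((Icc 1 b.succPNat : Finset ℕ+).filter (fun a => a ∈ S))
      (fun a ha => (mem_filter.1 ha).2) n i hi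
      (fun t => ⟨(hnb t).1, (filter_subset _ _).trans (Icc_subset_Icc le_rfl (by
        have h1 := (hnb t).2
        rw [← PNat.coe_le_coe, Nat.succPNat_coe, Nat.succPNat_coe]
        exact Nat.succ_le_succ h1))⟩) l
        ((Icc 1 B).image (fun u : ℕ => ((u : ℤ), (-1 : ℤ))))
        (by
          intro f hf
          obtain ⟨u, hu, rfl⟩ := mem_image.1 hf
          exact ⟨u, (mem_Icc.1 hu).1, rfl⟩)
    refine ⟨C, hC.mono fun N hN v hv Jf => ?_⟩
    obtain ⟨s, hs, hv⟩ := hv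
    have hs1 : ∀ t, ∃ z ∈ S, ((z : ℕ+) : ℕ) = s t := fun t => (hs t).1
    choose z hz1 hz2 using hs1
    obtain ⟨d, hd1, hd2, hd3⟩ := hN (fun t => ((v t : ℤ), 1))
      ⟨z, fun t => mem_filter.2 ⟨mem_Icc.2 ⟨one_le, by
        rw [← PNat.coe_le_coe, hz2 t, Nat.succPNat_coe]
        exact (hs t).2.trans (Nat.le_succ b)⟩, hz1 t⟩, fun t => by
        simp only [hF, hv t, hz2]
        push_cast
        rfl⟩ Jf
    refine ⟨d, hd1, hd2, hd3.trans ?_⟩
    rw [Nat.cast_le]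
    unfold startsE startsM
    apply card_le_card
    intro n' hn'
    rw [mem_filter] at hn' ⊢
    refine ⟨hn'.1, fun i' hi' => ?_⟩
    obtain ⟨h1, h2⟩ := hn'.2 i' hi'
    have hn1 : 1 ≤ n' + i' * d := le_trans (mem_Icc.1 hn'.1).1 (Nat.le_add_right _ _)
    refine ⟨fun j => ?_, fun u hu huB hp => ?_⟩
    · have h3 := h1 j
      have e : (v j : ℤ) * ((n' + i' * d : ℕ) : ℤ) + 1 = ((v j * (n' + i' * d) + 1 : ℕ) : ℤ) := by
        push_cast; ring
      simp only at h3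
      rw [e, Int.toNat_natCast] at h3
      exact h3
    · have h3 := h2 _ (mem_image.2 ⟨u, mem_Icc.2 ⟨hu, huB⟩, rfl⟩)
      have e : (u : ℤ) * ((n' + i' * d : ℕ) : ℤ) + -1 = ((u * (n' + i' * d) - 1 : ℕ) : ℤ) := by
        have : 1 ≤ u * (n' + i' * d) := Nat.mul_pos hu hn1
        push_cast [Nat.cast_sub this]
        ring
      simp only at h3
      rw [e, Int.toNat_natCast] at h3
      exact h3 hp

end Pool.Agent.U289.NX
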