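import Pool.Agent.U289.NX.Free

/-! From free sets to one sequence of columns; free sets and substitutions. -/

set_option autoImplicit false

namespace Pool.Agent.U289.NX

open Finset Filter
open Pool.Agent.Y827.HN
open Pool.Agent.U289.KT (U ev_ge L real choose_one exists_miss prodlt Lab startsF GoodF pattern_of_G)

open Classical in
/-- the number of the integers `n`, `1 ≤ n ≤ N`, such that for each `m = n, n + d, …, n + (l - 1) d` exactly
those of the numbers `(f_j).1 m + (f_j).2` with `j ∈ J` are prime, and the values of the forms of `E` at `m`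
are not prime -/
noncomputable def startsE {k : ℕ} (f : Fin k → ℤ × ℤ) (J : Finset (Fin k)) (E : Finset (ℤ × ℤ)) (l d N : ℕ) : ℕ :=
  ((Icc 1 N).filter (fun n : ℕ => ∀ i < l, (∀ j : Fin k,
    ((f j).1 * ((n + i * d : ℕ) : ℤ) + (f j).2).toNat.Prime ↔ j ∈ J) ∧
    ∀ u ∈ E, ¬ (u.1 * ((n + i * d : ℕ) : ℤ) + u.2).toNat.Prime)).card

/-- the systems of linear forms in `𝓕` are good at common scales, any finitely many forms of `𝒪` being composite -/
def GoodE (𝒪 : Set (ℤ × ℤ)) {k : ℕ} (𝓕 : Set (Fin k → ℤ × ℤ)) : Prop :=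
  ∀ (l : ℕ) (E : Finset (ℤ × ℤ)), (∀ u ∈ E, u ∈ 𝒪) → ∃ C : ℕ, ∃ᶠ N : ℕ in atTop, ∀ f ∈ 𝓕,
    ∀ J : Finset (Fin k), ∃ d : ℕ, 1 ≤ d ∧ (d : ℝ) ≤ (Real.log N) ^ C ∧
      (N : ℝ) / (Real.log N) ^ C ≤ (startsE f J E l d N : ℝ)

/-- one system -/
theorem pattern_of_P {k : ℕ} {t : Fin k → ℤ × ℤ} (ht : Function.Injective t) {E : Finset (ℤ × ℤ)}
    {l C N : ℕ} (h : AllP E l C N (univ.image t)) (J : Finset (Fin k)) :
    ∃ d : ℕ, 1 ≤ d ∧ (d : ℝ) ≤ (Real.log N) ^ C ∧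
      (N : ℝ) / (Real.log N) ^ C ≤ (startsE t J E l d N : ℝ) := by
  classical
  obtain ⟨d, hd1, hd2, hd3⟩ := h (J.image t) (image_subset_image (subset_univ _))
  refine ⟨d, hd1, hd2, hd3.trans ?_⟩
  unfold cntX startsE
  have hsub : (Icc (l + 1) N).filter (fun n : ℕ => ∀ j < l,
      (∀ f ∈ J.image t, (f.1 * ((n + j * d : ℕ) : ℤ) + f.2).toNat.Prime) ∧
      ∀ f ∈ (univ.image t \ J.image t) ∪ E,
        ¬ (f.1 * ((n + j * d : ℕ) : ℤ) + f.2).toNat.Prime) ⊆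
      (Icc 1 N).filter (fun n : ℕ => ∀ i < l, (∀ j : Fin k,
        ((t j).1 * ((n + i * d : ℕ) : ℤ) + (t j).2).toNat.Prime ↔ j ∈ J) ∧
        ∀ u ∈ E, ¬ (u.1 * ((n + i * d : ℕ) : ℤ) + u.2).toNat.Prime) := by
    intro n hn
    rw [mem_filter, mem_Icc] at hn
    rw [mem_filter, mem_Icc]
    refine ⟨⟨by omega, hn.1.2⟩, fun i hi => ?_⟩
    obtain ⟨h1, h2⟩ := hn.2 i hi
    refine ⟨fun j => ?_, fun u hu => h2 u (mem_union_right _ hu)⟩
    constructor
    · intro hp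
      by_contra hj
      refine h2 (t j) (mem_union_left _ (Finset.mem_sdiff.2
        ⟨mem_image_of_mem _ (mem_univ _), fun hm => hj ?_⟩)) hp
      obtain ⟨j', hj', hy2⟩ := mem_image.1 hm
      rwa [← ht hy2]
    · intro hj
      exact h1 _ (mem_image_of_mem _ hj)
  have := card_le_card hsub
  exact_mod_cast this

/-- **free sets of labels give one infinite sequence of columns** -/
theorem extract {𝒪 : Set (ℤ × ℤ)} {A : Type} [DecidableEq A] {F : ℕ → A → ℤ × ℤ}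
    (hinj0 : ∀ j a a', ∀ᶠ j' in (U : Filter ℕ), F j' a' ≠ F j a) {S : Set A} (hS : Free 𝒪 F S)
    (Λ : ℕ → Finset A) :
    ∃ jj : ℕ → ℕ, StrictMono jj ∧ ∀ (T : Finset A), (∀ a ∈ T, a ∈ S) → ∀ (k : ℕ) (i : Fin k → ℕ),
      StrictMono i → (∀ t, k ≤ i t ∧ T ⊆ Λ (i t)) →
      GoodE 𝒪 {f : Fin k → ℤ × ℤ | ∃ s : Fin k → A, (∀ t, s t ∈ T) ∧ ∀ t, f t = F (jj (i t)) (s t)} := by
  classical
  obtain ⟨j0, hj0, hjP, hJ⟩ := real (P 𝒪) F Λ
    (fun m f j => ∀ i : Fin m, ∀ a ∈ Λ m, ∀ a' ∈ Λ m, F j a' ≠ F (f i) a) (by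
    intro m f
    refine Filter.eventually_all.2 fun i => ?_
    rw [Filter.eventually_all_finset]
    intro a _
    rw [Filter.eventually_all_finset]
    intro a' _
    exact hinj0 _ a a')
  refine ⟨j0, hj0, fun T hTS k i hi hki l E hE => ?_⟩
  have hinj : ∀ s : Fin k → A, (∀ t, s t ∈ T) → Function.Injective (fun t => F (j0 (i t)) (s t)) := by
    intro s hs a b hab
    rcases lt_trichotomy a b with h | h | h
    · exact absurd hab.symm (hjP (i b) ⟨i a, hi h⟩ _ ((hki b).2 (hs a)) _ ((hki b).2 (hs b)))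
    · exact h
    · exact absurd hab (hjP (i a) ⟨i b, hi h⟩ _ ((hki a).2 (hs b)) _ ((hki a).2 (hs a)))
  have hG : ∀ s : Fin k → A, (∀ t, s t ∈ T) → P 𝒪 (univ.image (fun t => F (j0 (i t)) (s t))) := by
    intro s hs
    have h1 := hJ (List.ofFn (fun t : Fin k => (i t, s t))) (by
      rw [List.pairwise_ofFn]
      intro a b hab
      exact hi hab) (by
      intro y hy
      rw [List.mem_ofFn] at hy
      obtain ⟨t, rfl⟩ := hy
      rw [List.length_ofFn]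
      refine ⟨(hki t).1, fun z hz => ?_⟩
      rw [List.mem_ofFn] at hz
      obtain ⟨t', rfl⟩ := hz
      exact (hki t).2 (hs t'))
    have h2 := hS (List.ofFn s) (by
      intro a ha
      rw [List.mem_ofFn] at ha
      obtain ⟨t, rfl⟩ := ha
      exact hTS _ (hs t))
    have h3 : (List.ofFn (fun t : Fin k => (i t, s t))).map Prod.snd = List.ofFn s := by
      rw [List.map_ofFn]
      rfl
    rw [h3] at h1
    have h4 := h1.2 h2
    refine P_anti ?_ h4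
    intro y hy
    obtain ⟨t, -, rfl⟩ := mem_image.1 hy
    rw [List.mem_toFinset, List.mem_map]
    exact ⟨(i t, s t), List.mem_ofFn.2 ⟨t, rfl⟩, rfl⟩
  -- the constants
  have h1 : ∀ s : Fin k → T, ∃ A0 C : ℕ, 1 ≤ A0 ∧ ∀ᶠ N in (U : Filter ℕ),
      AllP E l C (A0 * N) (univ.image (fun t => F (j0 (i t)) (s t : A))) := fun s =>
    hG (fun t => (s t : A)) (fun t => (s t).2) l E hE
  choose Ac C hA1 hC using h1
  obtain ⟨Am, hAm⟩ : ∃ Am, ∀ s, Ac s ≤ Am :=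
    ⟨univ.sup Ac, fun s => Finset.le_sup (f := Ac) (mem_univ s)⟩
  obtain ⟨Cm, hCm⟩ : ∃ Cm, ∀ s, C s + 1 ≤ Cm :=
    ⟨univ.sup (fun s => C s + 1), fun s => Finset.le_sup (f := fun s => C s + 1) (mem_univ s)⟩
  have h2 : ∀ᶠ N in (U : Filter ℕ), ∀ s : Fin k → T,
      AllP E l (C s + 1) ((Am + 1) * N) (univ.image (fun t => F (j0 (i t)) (s t : A))) := by
    refine Filter.eventually_all.2 fun s => ?_
    filter_upwards [hC s, Nat.hyperfilter_le_atTop
      (AllP_scale (hA1 s) ((hAm s).trans (Nat.le_succ _)) l (C s))] with N h3 h4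
    exact h4 _ _ h3
  have h3 : ∀ᶠ N : ℕ in (U : Filter ℕ), ∀ f ∈ {f : Fin k → ℤ × ℤ | ∃ s : Fin k → A,
      (∀ t, s t ∈ T) ∧ ∀ t, f t = F (j0 (i t)) (s t)},
      ∀ J : Finset (Fin k), ∃ d : ℕ, 1 ≤ d ∧ (d : ℝ) ≤ (Real.log (((Am + 1) * N : ℕ) : ℝ)) ^ Cm ∧
        (((Am + 1) * N : ℕ) : ℝ) / (Real.log (((Am + 1) * N : ℕ) : ℝ)) ^ Cm ≤
          (startsE f J E l d ((Am + 1) * N) : ℝ) := by
    filter_upwards [h2, ev_ge 3] with N hN hN3 f hf J
    obtain ⟨s, hs, hf⟩ := hf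
    have hfe : f = fun t => F (j0 (i t)) (s t) := by funext t; exact hf t
    rw [hfe]
    have h33 : 3 ≤ (Am + 1) * N := by
      have : 1 * N ≤ (Am + 1) * N := Nat.mul_le_mul_right N (by omega)
      omega
    exact pattern_of_P (hinj s hs) (AllP_mono h33 (hCm _) (hN (fun t => ⟨s t, hs t⟩))) J
  have h4 := h3.frequently.filter_mono Nat.hyperfilter_le_atTop
  have h5 : Tendsto (fun N : ℕ => (Am + 1) * N) atTop atTop :=
    Filter.tendsto_id.const_mul_atTop' (Nat.succ_pos Am)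
  exact ⟨Cm, h5.frequently h4⟩

/-- substitutions: the labels `op c x` stand for the forms of `x` after a substitution -/
theorem L_comp {𝒪 : Set (ℤ × ℤ)} {A : Type} {F : ℕ → A → ℤ × ℤ} {σ : ℤ × ℤ} (hσ : 1 ≤ σ.1)
    (hO : ∀ u ∈ 𝒪, comp σ u ∈ 𝒪) (g : A → A)
    (hg : ∀ x, ∀ᶠ j in (U : Filter ℕ), F j (g x) = comp σ (F j x)) (φ : List A) :
    ∀ E : Finset (ℤ × ℤ), L (P 𝒪) F (φ.map g) (E.image (comp σ)) → L (P 𝒪) F φ E := by
  induction φ with
  | nil =>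
    intro E h
    exact P_comp hσ hO h
  | cons a φ ih =>
    intro E h
    rw [List.map_cons] at h
    unfold L at h ⊢
    filter_upwards [h, hg a] with j hj hj2
    apply ih
    rw [image_insert, ← hj2]
    exact hj

theorem Free.shift {𝒪 : Set (ℤ × ℤ)} {A : Type} {F : ℕ → A → ℤ × ℤ} {σ : ℤ × ℤ} (hσ : 1 ≤ σ.1)
    (hO : ∀ u ∈ 𝒪, comp σ u ∈ 𝒪) (g : A → A)
    (hg : ∀ x, ∀ᶠ j in (U : Filter ℕ), F j (g x) = comp σ (F j x)) {S : Set A} (hS : Free 𝒪 F S) :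
    Free 𝒪 F {x | g x ∈ S} := by
  intro φ hφ
  apply L_comp hσ hO g hg
  rw [image_empty]
  apply hS
  intro a ha
  obtain ⟨b, hb, rfl⟩ := List.mem_map.1 ha
  exact hφ b hb

/-- real weights, indexed windows -/
theorem free_index {𝒪 : Set (ℤ × ℤ)} {A : Type} [DecidableEq A] [Nonempty A] {F : ℕ → A → ℤ × ℤ}
    (hF : LabX 𝒪 F) (I : Finset ℕ)
    (x : ℕ → A) (w : ℕ → ℝ) (hw : ∀ t, 0 ≤ w t) :
    ∃ S : Set A, Free 𝒪 F S ∧ 5 * ∑ t ∈ I, w t ≤ 18 * ∑ t ∈ I, (open Classical in if x t ∈ S then w t else 0) := by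
  classical
  obtain ⟨J, hJ, hfree, h⟩ := free_weight hF (I.image x) (fun a => ∑ t ∈ I.filter (fun t => x t = a), w t)
    (fun a => sum_nonneg fun t _ => hw t)
  refine ⟨J, hfree, ?_⟩
  have h1 : ∑ a ∈ I.image x, ∑ t ∈ I.filter (fun t => x t = a), w t = ∑ t ∈ I, w t :=
    sum_fiberwise_of_maps_to (fun t ht => mem_image_of_mem x ht) w
  have h2 : ∑ a ∈ J, ∑ t ∈ I.filter (fun t => x t = a), w t = ∑ t ∈ I, (if x t ∈ (J : Set A) then w t else 0) := by
    have h3 : ∑ t ∈ I, (if x t ∈ (J : Set A) then w t else 0) = ∑ t ∈ I.filter (fun t => x t ∈ J), w t := by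
      rw [sum_filter]
      refine sum_congr rfl fun t _ => ?_
      simp only [mem_coe]
    rw [h3, ← sum_fiberwise_of_maps_to (s := I.filter (fun t => x t ∈ J)) (t := J) (g := x)
      (fun t ht => (mem_filter.1 ht).2) w]
    refine sum_congr rfl fun a ha => ?_
    rw [filter_filter]
    refine sum_congr ?_ fun _ _ => rfl
    refine filter_congr fun t _ => ?_
    constructor
    · rintro rfl
      exact ⟨ha, rfl⟩
    · exact fun h => h.2
  rw [h1, h2] at h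
  convert h

end Pool.Agent.U289.NX
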