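import Pool.Agent.U289.NX.Prop

/-! Free sets of labels, for the property with substitutions. -/

set_option autoImplicit false

namespace Pool.Agent.U289.NX

open Finset Filter
open Pool.Agent.Y827.HN
open Pool.Agent.U289.KT (U ev_ge L real choose_one exists_miss prodlt Lab startsF GoodF pattern_of_G)

/-- the labels in `S` can be prescribed freely -/
def Free (𝒪 : Set (ℤ × ℤ)) {A : Type} (F : ℕ → A → ℤ × ℤ) (S : Set A) : Prop :=
  ∀ φ : List A, (∀ a ∈ φ, a ∈ S) → L (P 𝒪) F φ ∅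

theorem Free.anti {𝒪 : Set (ℤ × ℤ)} {A : Type} {F : ℕ → A → ℤ × ℤ} {S S' : Set A} (h : S' ⊆ S)
    (hS : Free 𝒪 F S) : Free 𝒪 F S' := fun φ hφ => hS φ fun a ha => h (hφ a ha)

/-- labelled linear forms, outside a set of primitive forms -/
structure LabX (𝒪 : Set (ℤ × ℤ)) {A : Type} (F : ℕ → A → ℤ × ℤ) : Prop where
  lab : Lab F
  prim : ∀ u ∈ 𝒪, 0 < u.1 ∧ IsCoprime u.1 u.2
  out : ∀ a, ∀ᶠ j in (U : Filter ℕ), F j a ∉ 𝒪

/-- **free sets of labels** -/
theorem free_sub {𝒪 : Set (ℤ × ℤ)} {A : Type} [DecidableEq A] {F : ℕ → A → ℤ × ℤ} (hFX : LabX 𝒪 F) (n m : ℕ)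
    (hm : 18 * m < 5 * n) (e : Fin n → A) :
    ∃ I : Finset (Fin n), I.card = m + 1 ∧ Free 𝒪 F {x | ∃ a ∈ I, x = e a} := by
  have hF := hFX.lab
  classical
  have hn : 1 ≤ n := by omega
  by_contra hcon
  have hex : ∀ I : Finset (Fin n), ∃ φ : List A, I.card = m + 1 → (∀ a ∈ φ, ∃ b ∈ I, a = e b) ∧
      ¬ L (P 𝒪) F φ ∅ := by
    intro I
    by_cases hI : I.card = m + 1
    · have h1 : ¬ Free 𝒪 F {x | ∃ a ∈ I, x = e a} := fun h => hcon ⟨I, hI, h⟩
      unfold Free at h1
      push Not at h1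
      obtain ⟨φ, hφ1, hφ2⟩ := h1
      exact ⟨φ, fun _ => ⟨hφ1, hφ2⟩⟩
    · exact ⟨[], fun h => absurd h hI⟩
  choose φ hφ using hex
  obtain ⟨H, hH⟩ : ∃ H : ℕ, ∀ I, (φ I).length ≤ H :=
    ⟨univ.sup (fun I => (φ I).length), fun I => Finset.le_sup (f := fun I => (φ I).length) (mem_univ I)⟩
  obtain ⟨R, hR⟩ : ∃ R : ℕ, R = n * (2 ^ n * H) := ⟨_, rfl⟩
  obtain ⟨B, hB⟩ : ∃ B : ℕ, B = 18 * R + 1 := ⟨_, rfl⟩
  have hB1 : 1 ≤ B := by omega
  have hTM0 : 18 * (m * B + R) < 5 * (B * n) := by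
    have h1 : 18 * m + 1 ≤ 5 * n := hm
    have h2 : (18 * m + 1) * B ≤ 5 * n * B := Nat.mul_le_mul_right B h1
    nlinarith
  have hTM : (18 / 5 : ℝ) * ((m * B + R : ℕ) : ℝ) < ((B * n : ℕ) : ℝ) := by
    have h1 : (18 : ℝ) * ((m * B + R : ℕ) : ℝ) < 5 * ((B * n : ℕ) : ℝ) := by exact_mod_cast hTM0
    linarith
  obtain ⟨K, hK, hQK⟩ := hitP 𝒪 hFX.prim (B * n) (m * B + R) (Nat.mul_pos hB1 hn) hTM
  -- the columns
  set Λ : Finset A := univ.image e with hΛ
  have heΛ : ∀ a, e a ∈ Λ := fun a => mem_image_of_mem _ (mem_univ a)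
  choose ρ hρ using fun (p : ℕ) (hp : p.Prime) => hF.adm Λ p hp
  obtain ⟨jj, hjj, hjP, hJ⟩ := real (P 𝒪) F (fun _ => Λ)
    (fun m f j => (∀ p ∈ Finset.range (m + 1), ∀ hp : p.Prime, ∀ a ∈ Λ,
      ¬ (p : ℤ) ∣ (F j a).1 * ρ p hp + (F j a).2) ∧
      (∀ a ∈ Λ, (0 < (F j a).1 ∧ IsCoprime (F j a).1 (F j a).2) ∧ F j a ∉ 𝒪) ∧
      ∀ i : Fin m, ∀ a ∈ Λ, ∀ a' ∈ Λ, F j a' ≠ F (f i) a) (by
    intro m f
    refine Filter.Eventually.and ?_ (Filter.Eventually.and ?_ ?_)
    · rw [Filter.eventually_all_finset]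
      intro p _
      by_cases hp : p.Prime
      · filter_upwards [hρ p hp] with j hj _ a ha
        exact hj a ha
      · exact Filter.Eventually.of_forall fun j hp2 => absurd hp2 hp
    · rw [Filter.eventually_all_finset]
      intro a _
      exact (hF.pos a).and (hFX.out a)
    · refine Filter.eventually_all.2 fun i => ?_
      rw [Filter.eventually_all_finset]
      intro a _
      rw [Filter.eventually_all_finset]
      intro a' _
      exact hF.inj _ a a')
  obtain ⟨N₀, hN₀⟩ : ∃ N₀, N₀ = B * n * K + H := ⟨_, rfl⟩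
  set idx : Fin (B * n) → Fin K → ℕ := fun g i => N₀ + (finProdFinEquiv (g, i) : ℕ) with hidx
  set lab : Fin (B * n) → Fin n := fun g => (finProdFinEquiv.symm g).2 with hlab
  set x : Fin (B * n) → Fin K → ℤ × ℤ := fun g i => F (jj (idx g i)) (e (lab g)) with hx
  have hxinj : Function.Injective (fun y : Fin (B * n) × Fin K => x y.1 y.2) := by
    rintro ⟨g, i⟩ ⟨g', i'⟩ h
    simp only [hx] at h
    rcases lt_trichotomy (finProdFinEquiv (g, i)) (finProdFinEquiv (g', i')) with h1 | h1 | h1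
    · exfalso
      have h2 : idx g i < idx g' i' := Nat.add_lt_add_left h1 _
      exact (hjP (idx g' i')).2.2 ⟨idx g i, h2⟩ _ (heΛ _) _ (heΛ _) h.symm
    · exact finProdFinEquiv.injective h1
    · exfalso
      have h2 : idx g' i' < idx g i := Nat.add_lt_add_left h1 _
      exact (hjP (idx g i)).2.2 ⟨idx g' i', h2⟩ _ (heΛ _) _ (heΛ _) h
  obtain ⟨S, c, hS, hPat⟩ := hQK x hxinj (fun g i => ((hjP (idx g i)).2.1 _ (heΛ _)).1) (fun p hp hpK =>
    ⟨ρ p hp, fun g i => (hjP (idx g i)).1 p (Finset.mem_range.2 (by simp only [hidx]; omega)) hp _ (heΛ _)⟩)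
    (fun g i => ((hjP (idx g i)).2.1 _ (heΛ _)).2)
  -- a set of labels which occurs in many blocks
  set Gd : Finset (Fin n) → Finset (Fin B) := fun I =>
    univ.filter (fun β => ∀ a ∈ I, finProdFinEquiv (β, a) ∈ S) with hGd
  obtain ⟨I, hI, hIc⟩ : ∃ I : Finset (Fin n), I.card = m + 1 ∧ H < (Gd I).card := by
    by_contra hc2
    push Not at hc2
    set hits : Fin B → Finset (Fin n) := fun β => univ.filter (fun a => finProdFinEquiv (β, a) ∈ S)
      with hhits
    have h1 : S.card = ∑ β, (hits β).card := by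
      have h2 : S = univ.biUnion (fun β => (hits β).image (fun a => finProdFinEquiv (β, a))) := by
        ext g
        simp only [mem_biUnion, mem_univ, true_and, mem_image, hhits, mem_filter]
        constructor
        · intro hg
          have e1 : finProdFinEquiv ((finProdFinEquiv.symm g).1, (finProdFinEquiv.symm g).2) = g := by
            rw [Prod.mk.eta, Equiv.apply_symm_apply]
          exact ⟨(finProdFinEquiv.symm g).1, (finProdFinEquiv.symm g).2, by rw [e1]; exact hg, e1⟩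
        · rintro ⟨β, a, ha, rfl⟩
          exact ha
      conv_lhs => rw [h2]
      rw [card_biUnion]
      · refine sum_congr rfl fun β _ => ?_
        rw [card_image_of_injective]
        intro a a' h
        have := finProdFinEquiv.injective h
        simpa using this
      · intro β _ β' _ hne
        rw [Function.onFun, Finset.disjoint_left]
        intro g hg hg'
        obtain ⟨a, -, rfl⟩ := mem_image.1 hg
        obtain ⟨a', -, h⟩ := mem_image.1 hg'
        have := finProdFinEquiv.injective h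
        simp only [Prod.mk.injEq] at this
        exact hne this.1.symm
    set Good : Finset (Fin B) := univ.filter (fun β => m + 1 ≤ (hits β).card) with hGood
    have h2 : S.card ≤ m * B + n * Good.card := by
      rw [h1]
      calc ∑ β, (hits β).card ≤ ∑ β, (m + if m + 1 ≤ (hits β).card then n else 0) := by
            refine sum_le_sum fun β _ => ?_
            split_ifs with h
            · have : (hits β).card ≤ n := by
                have := card_le_univ (hits β)
                simpa using this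
              omega
            · omega
        _ = m * B + n * Good.card := by
            rw [sum_add_distrib, sum_const, card_univ, Fintype.card_fin, smul_eq_mul, ← sum_filter,
              sum_const, smul_eq_mul]
            ring
    have h3 : Good.card ≤ 2 ^ n * H := by
      have h4 : Good ⊆ (powersetCard (m + 1) (univ : Finset (Fin n))).biUnion Gd := by
        intro β hβ
        obtain ⟨I, hI1, hI2⟩ := exists_subset_card_eq (mem_filter.1 hβ).2
        refine mem_biUnion.2 ⟨I, mem_powersetCard.2 ⟨subset_univ _, hI2⟩, mem_filter.2 ⟨mem_univ _, ?_⟩⟩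
        intro a ha
        exact (mem_filter.1 (hI1 ha)).2
      calc Good.card ≤ _ := card_le_card h4
        _ ≤ ∑ I ∈ powersetCard (m + 1) (univ : Finset (Fin n)), (Gd I).card := card_biUnion_le
        _ ≤ ∑ I ∈ powersetCard (m + 1) (univ : Finset (Fin n)), H :=
            sum_le_sum fun I hI => hc2 I (mem_powersetCard.1 hI).2
        _ ≤ 2 ^ n * H := by
            rw [sum_const, smul_eq_mul]
            refine Nat.mul_le_mul_right _ ?_
            calc (powersetCard (m + 1) (univ : Finset (Fin n))).card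
                ≤ (univ : Finset (Finset (Fin n))).card := card_le_univ _
              _ = 2 ^ n := by simp
    have h5 : n * Good.card ≤ n * (2 ^ n * H) := Nat.mul_le_mul_left n h3
    omega
  -- the list
  obtain ⟨hφ1, hφ2⟩ := hφ I hI
  have hlen := hH I
  set bl : Fin (Gd I).card ↪o Fin B := (Gd I).orderEmbOfFin rfl with hbl
  have hblm : ∀ t, bl t ∈ Gd I := fun t => Finset.orderEmbOfFin_mem _ rfl t
  have hlab' : ∀ l : Fin (φ I).length, ∃ b ∈ I, (φ I).get l = e b := fun l =>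
    hφ1 _ (List.get_mem _ _)
  choose a ha1 ha2 using hlab'
  set β : Fin (φ I).length → Fin B := fun l => bl ⟨l, by have := l.2; omega⟩ with hβ
  set g : Fin (φ I).length → Fin (B * n) := fun l => finProdFinEquiv (β l, a l) with hg
  have hgS : ∀ l, g l ∈ S := fun l => (mem_filter.1 (hblm ⟨l, by have := l.2; omega⟩)).2 _ (ha1 l)
  have hβlt : ∀ l l', l < l' → β l < β l' := fun l l' h => bl.strictMono (by
    rw [Fin.lt_def]; exact h)
  have hglt : ∀ l l', l < l' → g l < g l' := fun l l' h => prodlt (hβlt l l' h) _ _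
  set Il : List (ℕ × A) := List.ofFn (fun l : Fin (φ I).length =>
    (idx (g l) (c (g l)), (φ I).get l)) with hIl
  have hr := hJ Il (by
    rw [hIl, List.pairwise_ofFn]
    intro l l' hll
    exact Nat.add_lt_add_left (prodlt (hglt l l' hll) _ _) _) (by
    intro y hy
    have hl : Il.length = (φ I).length := by rw [hIl, List.length_ofFn]
    rw [hl]
    rw [hIl, List.mem_ofFn] at hy
    obtain ⟨l, rfl⟩ := hy
    refine ⟨?_, ?_⟩
    · simp only [hidx]
      omega
    · intro z hz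
      rw [hIl, List.mem_ofFn] at hz
      obtain ⟨l', rfl⟩ := hz
      simp only
      rw [ha2 l']
      exact heΛ _)
  apply hφ2
  have hsnd : Il.map Prod.snd = φ I := by
    rw [hIl, List.map_ofFn]
    have : (Prod.snd ∘ fun l : Fin (φ I).length => (idx (g l) (c (g l)), (φ I).get l)) =
        (φ I).get := by funext l; rfl
    rw [this, List.ofFn_get]
  rw [← hsnd, ← hr]
  refine P_anti ?_ hPat
  intro y hy
  rw [List.mem_toFinset, List.mem_map] at hy
  obtain ⟨z, hz, rfl⟩ := hy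
  rw [hIl, List.mem_ofFn] at hz
  obtain ⟨l, rfl⟩ := hz
  refine mem_image.2 ⟨g l, hgS l, ?_⟩
  simp only [hx]
  have : lab (g l) = a l := by
    change (finProdFinEquiv.symm (finProdFinEquiv (β l, a l))).2 = a l
    rw [Equiv.symm_apply_apply]
  rw [this, ha2 l]

theorem free_empty {𝒪 : Set (ℤ × ℤ)} {A : Type} [DecidableEq A] [Nonempty A] {F : ℕ → A → ℤ × ℤ}
    (hF : LabX 𝒪 F) : Free 𝒪 F (∅ : Set A) := by
  obtain ⟨a⟩ := ‹Nonempty A›
  obtain ⟨I, -, h⟩ := free_sub hF 1 0 (by norm_num) (fun _ => a)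
  exact h.anti (Set.empty_subset _)

/-- natural weights -/
theorem free_nat {𝒪 : Set (ℤ × ℤ)} {A : Type} [DecidableEq A] [Nonempty A] {F : ℕ → A → ℤ × ℤ}
    (hF : LabX 𝒪 F) (V : Finset A) (r : A → ℕ) :
    ∃ I ⊆ V, Free 𝒪 F (I : Set A) ∧ 5 * ∑ a ∈ V, r a ≤ 18 * ∑ a ∈ I, r a := by
  classical
  obtain ⟨n, hn⟩ : ∃ n, n = ∑ a ∈ V, r a := ⟨_, rfl⟩
  rcases Nat.eq_zero_or_pos n with h0 | hpos
  · exact ⟨∅, empty_subset _, by rw [coe_empty]; exact free_empty hF, by omega⟩
  · obtain ⟨m, hm1, hm2⟩ : ∃ m : ℕ, 18 * m < 5 * n ∧ 5 * n ≤ 18 * (m + 1) :=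
      ⟨(5 * n - 1) / 18, by omega, by omega⟩
    have hcard : Fintype.card (Σ a : V, Fin (r a)) = n := by
      rw [Fintype.card_sigma, hn]
      simp only [Fintype.card_fin]
      exact Finset.sum_coe_sort V r
    set eq := Fintype.equivFinOfCardEq hcard with heq
    obtain ⟨I₀, hI₀, hfree⟩ := free_sub hF n m hm1 (fun i => ((eq.symm i).1 : A))
    refine ⟨I₀.image (fun i => ((eq.symm i).1 : A)), ?_, ?_, ?_⟩
    · intro y hy
      obtain ⟨i, -, rfl⟩ := mem_image.1 hy
      exact (eq.symm i).1.2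
    · refine hfree.anti ?_
      intro y hy
      obtain ⟨i, hi, rfl⟩ := mem_image.1 (mem_coe.1 hy)
      exact ⟨i, hi, rfl⟩
    · have h1 : I₀.card ≤ ∑ a ∈ I₀.image (fun i => ((eq.symm i).1 : A)), r a := by
        rw [card_eq_sum_card_image (fun i => ((eq.symm i).1 : A)) I₀]
        refine sum_le_sum fun a ha => ?_
        obtain ⟨i₀, -, hi₀⟩ := mem_image.1 ha
        have h2 : ({x ∈ I₀ | ((eq.symm x).1 : A) = a}).card ≤ (univ : Finset (Fin (r a))).card := by
          have key : ∀ x ∈ I₀.filter (fun x => ((eq.symm x).1 : A) = a), ∃ y : Fin (r a), (y : ℕ) = ((eq.symm x).2 : ℕ) := by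
            intro x hx
            have hxa := (mem_filter.1 hx).2
            have h3 := (eq.symm x).2.2
            exact ⟨⟨((eq.symm x).2 : ℕ), by rw [← hxa]; exact h3⟩, rfl⟩
          refine card_le_card_of_injOn (fun x => if hx : x ∈ I₀.filter (fun x => ((eq.symm x).1 : A) = a) then
            (key x hx).choose else ⟨0, by
              have h3 := (eq.symm i₀).2.2
              rw [← hi₀]
              omega⟩) (fun _ _ => mem_univ _) ?_
          intro x hx y hy hxy
          have hx' := mem_coe.1 hx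
          have hy' := mem_coe.1 hy
          simp only [dif_pos hx', dif_pos hy'] at hxy
          have e1 := (key x hx').choose_spec
          have e2 := (key y hy').choose_spec
          rw [hxy, e2] at e1
          have hxa := (mem_filter.1 hx').2
          have hya := (mem_filter.1 hy').2
          apply eq.symm.injective
          have h4 : (eq.symm x).1 = (eq.symm y).1 := Subtype.ext (by rw [hxa, hya])
          refine Sigma.ext h4 ?_
          rw [Fin.heq_ext_iff (by rw [h4])]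
          exact e1.symm
        simpa using h2
      rw [← hn]
      omega

/-- real weights -/
theorem free_weight {𝒪 : Set (ℤ × ℤ)} {A : Type} [DecidableEq A] [Nonempty A] {F : ℕ → A → ℤ × ℤ}
    (hF : LabX 𝒪 F) (V : Finset A) (w : A → ℝ) (hw : ∀ a, 0 ≤ w a) :
    ∃ I ⊆ V, Free 𝒪 F (I : Set A) ∧ 5 * ∑ a ∈ V, w a ≤ 18 * ∑ a ∈ I, w a := by
  classical
  by_contra hcon
  push Not at hcon
  have h1 : ∀ I : Finset A, ∃ M : ℕ, I ⊆ V → Free 𝒪 F (I : Set A) →
      5 * (V.card : ℝ) < M * (5 * ∑ a ∈ V, w a - 18 * ∑ a ∈ I, w a) := by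
    intro I
    by_cases hI : I ⊆ V ∧ Free 𝒪 F (I : Set A)
    · have h2 := hcon I hI.1 hI.2
      have h3 : 0 < 5 * ∑ a ∈ V, w a - 18 * ∑ a ∈ I, w a := by linarith
      obtain ⟨M, hM⟩ := exists_nat_gt (5 * (V.card : ℝ) / (5 * ∑ a ∈ V, w a - 18 * ∑ a ∈ I, w a))
      refine ⟨M, fun _ _ => ?_⟩
      rwa [div_lt_iff₀ h3] at hM
    · exact ⟨0, fun h h' => absurd ⟨h, h'⟩ hI⟩
  choose M hM using h1
  obtain ⟨M₀, hM₀⟩ : ∃ M₀ : ℕ, ∀ I ∈ V.powerset, M I ≤ M₀ := ⟨V.powerset.sup M, fun I hI => le_sup hI⟩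
  obtain ⟨I, hIV, hIF, hI⟩ := free_nat hF V (fun a => ⌊(M₀ : ℝ) * w a⌋₊)
  have h2 := hM I hIV hIF
  have h3 := hcon I hIV hIF
  have h4 : (M I : ℝ) ≤ M₀ := by exact_mod_cast hM₀ I (mem_powerset.2 hIV)
  have h5 : 5 * (V.card : ℝ) < M₀ * (5 * ∑ a ∈ V, w a - 18 * ∑ a ∈ I, w a) :=
    lt_of_lt_of_le h2 (mul_le_mul_of_nonneg_right h4 (by linarith))
  have h6 : (5 : ℝ) * ∑ a ∈ V, ((⌊(M₀ : ℝ) * w a⌋₊ : ℕ) : ℝ) ≤ 18 * ∑ a ∈ I, ((⌊(M₀ : ℝ) * w a⌋₊ : ℕ) : ℝ) := by
    exact_mod_cast hI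
  have h7 : ∑ a ∈ I, ((⌊(M₀ : ℝ) * w a⌋₊ : ℕ) : ℝ) ≤ M₀ * ∑ a ∈ I, w a := by
    rw [mul_sum]
    exact sum_le_sum fun a _ => Nat.floor_le (mul_nonneg (Nat.cast_nonneg _) (hw a))
  have h8 : (M₀ : ℝ) * ∑ a ∈ V, w a - V.card ≤ ∑ a ∈ V, ((⌊(M₀ : ℝ) * w a⌋₊ : ℕ) : ℝ) := by
    have : (M₀ : ℝ) * ∑ a ∈ V, w a - V.card = ∑ a ∈ V, ((M₀ : ℝ) * w a - 1) := by
      rw [sum_sub_distrib, mul_sum]
      simp
    rw [this]
    exact sum_le_sum fun a _ => (Nat.sub_one_lt_floor _).le
  nlinarith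

end Pool.Agent.U289.NX
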