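import Pool.Agent.U289.NX.Nest
import Pool.Agent.U289.KT.Lim
import Pool.Agent.Helper639.Tk.Ptak

/-! Nested configurations, infinitely many finite probability measures, and clusters near the points of an array. -/

set_option autoImplicit false

namespace Pool.Agent.U289.NX

open Finset Filter
open Pool.Agent.U289.KT (U ev_ge)

variable {M : Type}

open Classical in
theorem sum_ind (n : ℕ) (w : ℕ → ℝ) (Q : ℕ → Prop) :
    ∑ j ∈ range n, w j * ind (Q j) = ∑ j ∈ (range n).filter Q, w j := by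
  rw [sum_filter]
  refine sum_congr rfl fun j _ => ?_
  by_cases hQ : Q j
  · rw [if_pos hQ, ind_pos hQ, mul_one]
  · rw [if_neg hQ, ind_neg hQ, mul_zero]

/-- the limit of a sequence of sets -/
def lim (T : ℕ → Set M) : Set M := {a | ∀ᶠ n in (U : Filter ℕ), a ∈ T n}

theorem lim_iff (T : ℕ → Set M) (a : M) : ∀ᶠ n in (U : Filter ℕ), (a ∈ T n ↔ a ∈ lim T) := by
  by_cases h : ∀ᶠ n in (U : Filter ℕ), a ∈ T n
  · filter_upwards [h] with n hn
    exact ⟨fun _ => h, fun _ => hn⟩
  · have h' := Ultrafilter.eventually_not.2 h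
    filter_upwards [h'] with n hn
    exact ⟨fun h2 => absurd h2 hn, fun h2 => absurd h2 h⟩

theorem lim_hit (op : M → M → M) (T : ℕ → Set M) (v : M) (K : Finset M) :
    ∀ᶠ n in (U : Filter ℕ), (Hit op (T n) v K ↔ Hit op (lim T) v K) := by
  have h : ∀ᶠ n in (U : Filter ℕ), ∀ k ∈ K, (op v k ∈ T n ↔ op v k ∈ lim T) := by
    rw [Filter.eventually_all_finset]
    intro k _
    exact lim_iff T _
  filter_upwards [h] with n hn
  exact ⟨fun ⟨k, hk, h2⟩ => ⟨k, hk, (hn k hk).1 h2⟩, fun ⟨k, hk, h2⟩ => ⟨k, hk, (hn k hk).2 h2⟩⟩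

/-- nested configurations, infinitely many measures -/
theorem nest_freq [DecidableEq M] [Nonempty M] {op : M → M → M} (hassoc : ∀ a b c, op (op a b) c = op a (op b c))
    {Φ : Set M → Prop} (hshift : ∀ (S : Set M) (c : M), Φ S → Φ {x | op c x ∈ S})
    (hlim : ∀ T : ℕ → Set M, (∀ n, Φ (T n)) → Φ (lim T)) (K : ℕ → Finset M)
    (δ : ℝ) (hδ : 0 < δ)
    (hbase : ∀ (I : Finset ℕ) (pos : ℕ → M) (w : ℕ → ℝ), (∀ t, 0 ≤ w t) → ∃ S, Φ S ∧
      δ * ∑ t ∈ I, w t ≤ ∑ t ∈ I, w t * ind (Hit op S (pos t) (K t)))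
    (ρ : ℝ) (hρ0 : 0 ≤ ρ) (hρ : ρ < 1) :
    ∃ C : ℕ → Finset M, ∀ (v : ℕ → M) (P : ℕ → ℕ → ℝ) (s : ℕ → ℕ), (∀ t j, 0 ≤ P t j) →
      (∀ t, ∑ j ∈ range (s t), P t j = 1) →
      ∃ S, Φ S ∧ ∃ᶠ t in atTop, ρ ≤ ∑ j ∈ range (s t), P t j * ind (Hit op S (v j) (C j)) := by
  obtain ⟨C, hC⟩ := nest hassoc hshift K δ hδ hbase ((1 + ρ) / 2) (by linarith) (by linarith)
  refine ⟨C, fun v P s hP hP1 => ?_⟩
  by_contra hcon0
  have hcon : ∀ S, Φ S → ¬ ∃ᶠ t in atTop, ρ ≤ ∑ j ∈ range (s t), P t j * ind (Hit op S (v j) (C j)) :=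
    fun S hS h => hcon0 ⟨S, hS, h⟩
  obtain ⟨J, c, -, hc0, hcJ, hc1, hcF⟩ := Pool.Agent.Helper639.Tk.ptak
    (fun T : Finset ℕ => ∃ S, Φ S ∧ ∀ t ∈ T, ρ ≤ ∑ j ∈ range (s t), P t j * ind (Hit op S (v j) (C j)))
    (fun T T' hTT' ⟨I, hI, h⟩ => ⟨I, hI, fun t ht => h t (hTT' ht)⟩)
    (by
      classical
      intro M hM
      by_contra hinf
      have h1 : ∀ n : ℕ, ∃ S, Φ S ∧ ∀ t ∈ (range (n + 1)).filter (fun t => t ∈ M),
          ρ ≤ ∑ j ∈ range (s t), P t j * ind (Hit op S (v j) (C j)) := fun n =>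
        hM _ (fun t ht => (mem_filter.1 (mem_coe.1 ht)).2)
      choose S hS1 hS2 using h1
      refine hcon (lim S) (hlim S hS1) ?_
      have h2 : ∀ t ∈ M, ρ ≤ ∑ j ∈ range (s t), P t j * ind (Hit op (lim S) (v j) (C j)) := by
        intro t ht
        have h3 : ∀ᶠ n in (U : Filter ℕ), ∀ j ∈ range (s t),
            (Hit op (S n) (v j) (C j) ↔ Hit op (lim S) (v j) (C j)) := by
          rw [Filter.eventually_all_finset]
          intro j _
          exact lim_hit op S _ _
        obtain ⟨n, hn1, hn2⟩ := (h3.and (ev_ge t)).exists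
        have h4 := hS2 n t (mem_filter.2 ⟨mem_range.2 (by omega), ht⟩)
        refine h4.trans (le_of_eq (sum_congr rfl fun j hj => ?_))
        rw [ind_congr (hn1 j hj)]
      have h3 : ∃ᶠ t in atTop, t ∈ M := Nat.frequently_atTop_iff_infinite.2 hinf
      exact h3.mono h2)
    ((1 - ρ) / 2) (by linarith) 0
  -- the average of the measures
  set s' : ℕ := J.sup s with hs'
  have hss : ∀ t ∈ J, s t ≤ s' := fun t ht => Finset.le_sup ht
  set p : ℕ → ℝ := fun j => ∑ t ∈ J, c t * (if j < s t then P t j else 0) with hp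
  have hp0 : ∀ j, 0 ≤ p j := by
    intro j
    refine sum_nonneg fun t _ => mul_nonneg (hc0 t) ?_
    split_ifs
    · exact hP t j
    · exact le_rfl
  have hsum : ∀ f : ℕ → ℝ, ∑ j ∈ range s', p j * f j = ∑ t ∈ J, c t * ∑ j ∈ range (s t), P t j * f j := by
    intro f
    simp only [hp, sum_mul]
    rw [sum_comm]
    refine sum_congr rfl fun t ht => ?_
    rw [mul_sum]
    have e : ∑ j ∈ range (s t), c t * (P t j * f j) =
        ∑ j ∈ range s', (if j < s t then c t * (P t j * f j) else 0) := by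
      rw [← sum_filter]
      refine sum_congr ?_ fun _ _ => rfl
      ext j
      rw [mem_filter, mem_range, mem_range]
      exact ⟨fun h => ⟨lt_of_lt_of_le h (hss t ht), h⟩, fun h => h.2⟩
    rw [e]
    refine sum_congr rfl fun j _ => ?_
    split_ifs
    · ring
    · ring
  have hp1 : ∑ j ∈ range s', p j = 1 := by
    have h1 := hsum (fun _ => 1)
    simp only [mul_one] at h1
    rw [h1]
    calc ∑ t ∈ J, c t * ∑ j ∈ range (s t), P t j = ∑ t ∈ J, c t :=
          sum_congr rfl fun t _ => by rw [hP1 t, mul_one]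
      _ = 1 := hc1
  obtain ⟨S, hS, hS2⟩ := hC v p s' hp0 hp1
  rw [hsum] at hS2
  classical
  set T : Finset ℕ := J.filter (fun t => ρ ≤ ∑ j ∈ range (s t), P t j * ind (Hit op S (v j) (C j))) with hT
  have hTF := hcF T ⟨S, hS, fun t ht => (mem_filter.1 ht).2⟩
  have hX1 : ∀ t, ∑ j ∈ range (s t), P t j * ind (Hit op S (v j) (C j)) ≤ 1 := by
    intro t
    rw [← hP1 t]
    refine sum_le_sum fun j _ => ?_
    have := mul_le_mul_of_nonneg_left (ind_le_one (Hit op S (v j) (C j))) (hP t j)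
    rwa [mul_one] at this
  have hb : ∀ t ∈ J, c t * ∑ j ∈ range (s t), P t j * ind (Hit op S (v j) (C j)) ≤
      (if t ∈ T then c t else 0) * (1 - ρ) + ρ * c t := by
    intro t ht
    have hct := hc0 t
    by_cases htT : t ∈ T
    · rw [if_pos htT]
      have := mul_le_mul_of_nonneg_left (hX1 t) hct
      nlinarith
    · rw [if_neg htT, zero_mul, zero_add, mul_comm ρ]
      refine mul_le_mul_of_nonneg_left ?_ hct
      by_contra h
      exact htT (mem_filter.2 ⟨ht, (not_le.1 h).le⟩)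
  have hb2 := sum_le_sum hb
  have hTJ : T ⊆ J := filter_subset _ _
  have e2 : ∑ t ∈ J, (if t ∈ T then c t else 0) = ∑ t ∈ T, c t := by
    rw [← sum_filter, filter_mem_eq_inter, inter_eq_right.2 hTJ]
  rw [sum_add_distrib, ← sum_mul, e2, ← mul_sum, hc1, mul_one] at hb2
  have hT0 : 0 ≤ ∑ t ∈ T, c t := sum_nonneg fun t _ => hc0 t
  nlinarith

/-- an enumeration of consecutive blocks -/
theorem block_index (st : ℕ → ℕ) (hmono : StrictMono st) :
    ∃ ch : ℕ → ℕ, ∀ j, ∀ t ∈ Ico (st j) (st (j + 1)), ch t = j := by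
  classical
  have hex : ∀ t, ∃ j, t < st (j + 1) := fun t => ⟨t, lt_of_lt_of_le (Nat.lt_succ_self t) (hmono.id_le (t + 1))⟩
  refine ⟨fun t => Nat.find (hex t), fun j t ht => ?_⟩
  rw [mem_Ico] at ht
  refine le_antisymm (Nat.find_min' _ ht.2) ?_
  by_contra hlt
  push Not at hlt
  have h3 : t < st (Nat.find (hex t) + 1) := Nat.find_spec (hex t)
  have h4 : st (Nat.find (hex t) + 1) ≤ st j := hmono.monotone hlt
  omega

/-- **clusters near most points of every array** -/
theorem clusters [DecidableEq M] [Nonempty M] {op : M → M → M} (hassoc : ∀ a b c, op (op a b) c = op a (op b c))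
    (hsep : ∀ D K : Finset M, ∃ g, ∀ k ∈ K, op g k ∉ D)
    {Φ : Set M → Prop} (hshift : ∀ (S : Set M) (c : M), Φ S → Φ {x | op c x ∈ S})
    (hlim : ∀ T : ℕ → Set M, (∀ n, Φ (T n)) → Φ (lim T)) (K : ℕ → Finset M)
    (δ : ℝ) (hδ : 0 < δ)
    (hbase : ∀ (I : Finset ℕ) (pos : ℕ → M) (w : ℕ → ℝ), (∀ t, 0 ≤ w t) → ∃ S, Φ S ∧
      δ * ∑ t ∈ I, w t ≤ ∑ t ∈ I, w t * ind (Hit op S (pos t) (K t)))
    (ε : ℝ) (hε : 0 < ε) (hε1 : ε < 1) (k m : ℕ → ℕ) (hk : ∀ j, 1 ≤ k j) (hm : ∀ j, 1 ≤ m j) :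
    ∃ C : ℕ → Finset M, ∀ (V : ℕ → ℕ → M) (P : ℕ → ℕ → ℝ) (s : ℕ → ℕ), (∀ t j, 0 ≤ P t j) →
      (∀ t, ∑ j ∈ range (s t), P t j = 1) →
      ∃ S, Φ S ∧ ∃ᶠ t in atTop, 1 - ε ≤ ∑ j ∈ range (s t), P t j *
        ind (∃ R ⊆ range (k j), (1 - ε) * k j ≤ R.card ∧ ∀ i ∈ R, ∃ E ⊆ C j, E.card = m j ∧
          ∀ c ∈ E, op (V j i) c ∈ S) := by
  classical
  set st : ℕ → ℕ := fun j => ∑ j' ∈ range j, k j' * (2 * m j') with hst
  have hst1 : ∀ j, st (j + 1) = st j + k j * (2 * m j) := fun j => by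
    simp only [hst]
    rw [Finset.sum_range_succ]
  have hst0 : st 0 = 0 := by simp only [hst, range_zero, sum_empty]
  have hmono : StrictMono st := strictMono_nat_of_lt_succ fun j => by
    rw [hst1]
    have : 1 * 1 ≤ k j * (2 * m j) := Nat.mul_le_mul (hk j) (by have := hm j; omega)
    omega
  obtain ⟨ch, hch⟩ := block_index st hmono
  obtain ⟨C0, hC0⟩ := nest_freq hassoc hshift hlim K δ hδ hbase (1 - ε ^ 2 / 2) (by nlinarith) (by nlinarith)
  -- the separators
  choose sep hsep1 using hsep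
  set D : ℕ → Finset M := fun t => Nat.rec ∅ (fun t D => D ∪ (C0 t).image (op (sep D (C0 t)))) t with hD
  set g : ℕ → M := fun t => sep (D t) (C0 t) with hg
  have hDs : ∀ t, D (t + 1) = D t ∪ (C0 t).image (op (g t)) := fun t => rfl
  have hDm : ∀ t t', t ≤ t' → D t ⊆ D t' := by
    intro t t' h
    induction t', h using Nat.le_induction with
    | base => exact Subset.rfl
    | succ t' _ ih => exact ih.trans (by rw [hDs]; exact subset_union_left)
  have hdisj : ∀ t t', t < t' → ∀ c ∈ C0 t, ∀ c' ∈ C0 t', op (g t) c ≠ op (g t') c' := by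
    intro t t' htt c hc c' hc' he
    have h1 : op (g t) c ∈ D t' := by
      apply hDm (t + 1) t' htt
      rw [hDs]
      exact mem_union_right _ (mem_image_of_mem _ hc)
    rw [he] at h1
    exact hsep1 (D t') (C0 t') c' hc' h1
  set CC : ℕ → Finset M := fun j => (Ico (st j) (st (j + 1))).biUnion (fun t => (C0 t).image (op (g t))) with hCC
  refine ⟨CC, fun V P s hP hP1 => ?_⟩
  -- the points and the measures
  set v : ℕ → M := fun t => op (V (ch t) ((t - st (ch t)) / (2 * m (ch t)))) (g t) with hv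
  set Q : ℕ → ℕ → ℝ := fun n t => P n (ch t) / ((k (ch t) * (2 * m (ch t)) : ℕ) : ℝ) with hQ
  have hQ0 : ∀ n t, 0 ≤ Q n t := fun n t => div_nonneg (hP _ _) (Nat.cast_nonneg _)
  have hkm : ∀ j, (0 : ℝ) < ((k j * (2 * m j) : ℕ) : ℝ) := fun j => by
    have : 1 * 1 ≤ k j * (2 * m j) := Nat.mul_le_mul (hk j) (by have := hm j; omega)
    have h2 : 0 < k j * (2 * m j) := by omega
    exact_mod_cast h2
  have hblk : ∀ (n j : ℕ) (f : ℕ → ℝ), ∑ t ∈ Ico (st j) (st (j + 1)), Q n t * f t =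
      P n j * ((∑ t ∈ Ico (st j) (st (j + 1)), f t) / ((k j * (2 * m j) : ℕ) : ℝ)) := by
    intro n j f
    rw [sum_div, mul_sum]
    refine sum_congr rfl fun t ht => ?_
    simp only [hQ]
    rw [hch j t ht]
    ring
  have hall : ∀ (n : ℕ) (f : ℕ → ℝ), ∑ t ∈ range (st (s n)), Q n t * f t = ∑ j ∈ range (s n),
      P n j * ((∑ t ∈ Ico (st j) (st (j + 1)), f t) / ((k j * (2 * m j) : ℕ) : ℝ)) := by
    intro n f
    have h1 := sum_blocks st hmono.monotone (fun t => Q n t * f t) (s n)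
    rw [hst0, ← range_eq_Ico] at h1
    rw [h1]
    exact sum_congr rfl fun j _ => hblk n j f
  have hQ1 : ∀ n, ∑ t ∈ range (st (s n)), Q n t = 1 := by
    intro n
    have h1 := hall n (fun _ => 1)
    simp only [mul_one] at h1
    rw [h1]
    refine (sum_congr rfl fun j _ => ?_).trans (hP1 n)
    rw [sum_const, Nat.card_Ico, hst1, Nat.add_sub_cancel_left, nsmul_eq_mul, mul_one,
      div_self (hkm j).ne', mul_one]
  obtain ⟨S, hS, hfreq⟩ := hC0 v Q (fun n => st (s n)) hQ0 hQ1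
  refine ⟨S, hS, hfreq.mono fun n hn => ?_⟩
  rw [hall] at hn
  -- one block
  set G : ℕ → Prop := fun j => ∃ R ⊆ range (k j), (1 - ε) * k j ≤ R.card ∧ ∀ i ∈ R, ∃ E ⊆ CC j,
    E.card = m j ∧ ∀ c ∈ E, op (V j i) c ∈ S with hG
  have hone : ∀ j, (∑ t ∈ Ico (st j) (st (j + 1)), ind (Hit op S (v t) (C0 t))) /
      ((k j * (2 * m j) : ℕ) : ℝ) ≤ 1 - ε / 2 * (1 - ind (G j)) := by
    intro j
    rw [div_le_iff₀ (hkm j)]
    set bi : ℕ → ℕ := fun i => st j + i * (2 * m j) with hbi
    have hbm : Monotone bi := fun a b hab => by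
      simp only [hbi]
      have := Nat.mul_le_mul_right (2 * m j) hab
      omega
    have h1 := sum_blocks bi hbm (fun t => ind (Hit op S (v t) (C0 t))) (k j)
    have e0 : bi 0 = st j := by simp only [hbi]; omega
    have e1 : bi (k j) = st (j + 1) := by rw [hst1]
    rw [e0, e1] at h1
    rw [h1]
    have hmj := hm j
    have hsub : ∀ i < k j, ∀ t ∈ Ico (bi i) (bi (i + 1)), t ∈ Ico (st j) (st (j + 1)) ∧
        v t = op (V j i) (g t) := by
      intro i hi t ht
      rw [mem_Ico] at ht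
      have h2 : bi (i + 1) ≤ bi (k j) := hbm hi
      have h3 : st j ≤ bi i := by simp only [hbi]; omega
      have h4 : t ∈ Ico (st j) (st (j + 1)) := mem_Ico.2 ⟨h3.trans ht.1, by rw [← e1]; omega⟩
      refine ⟨h4, ?_⟩
      simp only [hv]
      rw [hch j t h4]
      have h5 : (t - st j) / (2 * m j) = i := by
        have e2 : bi (i + 1) = bi i + 2 * m j := by simp only [hbi]; ring
        rw [e2] at ht
        have e3 : bi i = st j + i * (2 * m j) := rfl
        rw [e3] at ht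
        apply Nat.div_eq_of_lt_le
        · omega
        · have : (i + 1) * (2 * m j) = i * (2 * m j) + 2 * m j := by ring
          omega
      rw [h5]
    -- the rows with many windows
    set R : Finset ℕ := (range (k j)).filter (fun i =>
      m j ≤ ((Ico (bi i) (bi (i + 1))).filter (fun t => Hit op S (v t) (C0 t))).card) with hR
    have hcardb : ∀ i, (Ico (bi i) (bi (i + 1))).card = 2 * m j := by
      intro i
      rw [Nat.card_Ico]
      have e2 : bi (i + 1) = bi i + 2 * m j := by simp only [hbi]; ring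
      omega
    have hrow : ∀ i ∈ range (k j), ∑ t ∈ Ico (bi i) (bi (i + 1)), ind (Hit op S (v t) (C0 t)) ≤
        (m j : ℝ) + (if i ∈ R then (m j : ℝ) else 0) := by
      intro i hi
      have h2 : ∑ t ∈ Ico (bi i) (bi (i + 1)), ind (Hit op S (v t) (C0 t)) =
          (((Ico (bi i) (bi (i + 1))).filter (fun t => Hit op S (v t) (C0 t))).card : ℝ) := by
        rw [card_filter]
        push_cast
        refine sum_congr rfl fun t _ => ?_
        by_cases h : Hit op S (v t) (C0 t)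
        · rw [ind_pos h, if_pos h]
        · rw [ind_neg h, if_neg h]
      rw [h2]
      by_cases hiR : i ∈ R
      · rw [if_pos hiR]
        have h3 := card_filter_le (Ico (bi i) (bi (i + 1))) (fun t => Hit op S (v t) (C0 t))
        rw [hcardb] at h3
        have h4 : (((Ico (bi i) (bi (i + 1))).filter (fun t => Hit op S (v t) (C0 t))).card : ℝ) ≤
            ((2 * m j : ℕ) : ℝ) := by exact_mod_cast h3
        push_cast at h4
        linarith
      · rw [if_neg hiR, add_zero]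
        have h3 : ((Ico (bi i) (bi (i + 1))).filter (fun t => Hit op S (v t) (C0 t))).card < m j := by
          by_contra h
          exact hiR (mem_filter.2 ⟨hi, not_lt.1 h⟩)
        exact_mod_cast h3.le
    have hRsub : R ⊆ range (k j) := filter_subset _ _
    have htot : ∑ i ∈ range (k j), ∑ t ∈ Ico (bi i) (bi (i + 1)), ind (Hit op S (v t) (C0 t)) ≤
        m j * (k j + R.card) := by
      calc _ ≤ ∑ i ∈ range (k j), ((m j : ℝ) + (if i ∈ R then (m j : ℝ) else 0)) := sum_le_sum hrow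
        _ = m j * (k j + R.card) := by
            rw [sum_add_distrib, sum_const, card_range, nsmul_eq_mul, ← sum_filter,
              filter_mem_eq_inter, inter_eq_right.2 hRsub, sum_const, nsmul_eq_mul]
            ring
    refine htot.trans ?_
    have hRk : (R.card : ℝ) ≤ k j := by
      have := card_le_card hRsub
      rw [card_range] at this
      exact_mod_cast this
    have hmr : (1 : ℝ) ≤ m j := by exact_mod_cast hmj
    have hkr : (1 : ℝ) ≤ k j := by exact_mod_cast hk j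
    have h2m : (((k j) * (2 * m j) : ℕ) : ℝ) = 2 * (k j * m j) := by push_cast; ring
    rw [h2m]
    by_cases hGj : G j
    · rw [ind_pos hGj]
      have := mul_le_mul_of_nonneg_left hRk (by linarith : (0 : ℝ) ≤ m j)
      linarith
    · rw [ind_neg hGj]
      have h3 : (R.card : ℝ) < (1 - ε) * k j := by
        by_contra h
        apply hGj
        refine ⟨R, hRsub, not_lt.1 h, fun i hi => ?_⟩
        rw [hR, mem_filter] at hi
        have hik := mem_range.1 hi.1
        obtain ⟨T, hT1, hT2⟩ := exists_subset_card_eq hi.2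
        have hTH : ∀ t ∈ T, ∃ c ∈ C0 t, op (v t) c ∈ S := fun t ht => (mem_filter.1 (hT1 ht)).2
        have hTI : ∀ t ∈ T, t ∈ Ico (st j) (st (j + 1)) ∧ v t = op (V j i) (g t) := fun t ht =>
          hsub i hik t (mem_filter.1 (hT1 ht)).1
        choose! cc hcc1 hcc2 using hTH
        refine ⟨T.image (fun t => op (g t) (cc t)), ?_, ?_, ?_⟩
        · intro y hy
          obtain ⟨t, ht, rfl⟩ := mem_image.1 hy
          exact mem_biUnion.2 ⟨t, (hTI t ht).1, mem_image_of_mem _ (hcc1 t ht)⟩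
        · rw [card_image_of_injOn, hT2]
          intro t ht t' ht' he
          rcases lt_trichotomy t t' with h | h | h
          · exact absurd he (hdisj t t' h _ (hcc1 t ht) _ (hcc1 t' ht'))
          · exact h
          · exact absurd he.symm (hdisj t' t h _ (hcc1 t' ht') _ (hcc1 t ht))
        · intro y hy
          obtain ⟨t, ht, rfl⟩ := mem_image.1 hy
          have := hcc2 t ht
          rwa [(hTI t ht).2, hassoc] at this
      have h4 := mul_lt_mul_of_pos_left h3 (by linarith : (0 : ℝ) < m j)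
      nlinarith
  have hsum : ∑ j ∈ range (s n), P n j * ((∑ t ∈ Ico (st j) (st (j + 1)), ind (Hit op S (v t) (C0 t))) /
      ((k j * (2 * m j) : ℕ) : ℝ)) ≤ ∑ j ∈ range (s n), P n j * (1 - ε / 2 * (1 - ind (G j))) :=
    sum_le_sum fun j _ => mul_le_mul_of_nonneg_left (hone j) (hP n j)
  have hexp : ∑ j ∈ range (s n), P n j * (1 - ε / 2 * (1 - ind (G j))) =
      (1 - ε / 2) + ε / 2 * ∑ j ∈ range (s n), P n j * ind (G j) := by
    have : ∀ j ∈ range (s n), P n j * (1 - ε / 2 * (1 - ind (G j))) =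
        (1 - ε / 2) * P n j + ε / 2 * (P n j * ind (G j)) := fun j _ => by ring
    rw [sum_congr rfl this, sum_add_distrib, ← mul_sum, ← mul_sum, hP1 n, mul_one]
  have hfin := hn.trans (hsum.trans_eq hexp)
  have : ε / 2 * (1 - ε) ≤ ε / 2 * ∑ j ∈ range (s n), P n j * ind (G j) := by nlinarith
  exact le_of_mul_le_mul_left this (by linarith)

end Pool.Agent.U289.NX
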