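import Pool.Agent.U289.NX.Ext
import Pool.Agent.U289.NX.Freq

/-! Free sets which are large near most points of every array, for semigroups of substitutions. -/

set_option autoImplicit false

namespace Pool.Agent.U289.NX

open Finset Filter
open Pool.Agent.U289.KT (U ev_ge L Lab)


theorem free_lim {𝒪 : Set (ℤ × ℤ)} {A : Type} {F : ℕ → A → ℤ × ℤ} (T : ℕ → Set A)
    (hT : ∀ n, Free 𝒪 F (T n)) : Free 𝒪 F (lim T) := by
  classical
  intro φ hφ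
  have h1 : ∀ᶠ n in (U : Filter ℕ), ∀ a ∈ φ.toFinset, a ∈ T n := by
    rw [Filter.eventually_all_finset]
    intro a ha
    exact hφ a (List.mem_toFinset.1 ha)
  obtain ⟨n, hn⟩ := h1.exists
  exact hT n φ fun a ha => hn a (List.mem_toFinset.2 ha)

theorem L_image {𝒪 : Set (ℤ × ℤ)} {A B : Type} {F : ℕ → A → ℤ × ℤ} (x : B → A) (φ : List B) :
    ∀ E : Finset (ℤ × ℤ), L (P 𝒪) (fun j t => F j (x t)) φ E → L (P 𝒪) F (φ.map x) E := by
  induction φ with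
  | nil => exact fun E h => h
  | cons a φ ih =>
    intro E h
    rw [List.map_cons]
    unfold L at h ⊢
    exact h.mono fun j hj => ih _ hj

theorem free_image {𝒪 : Set (ℤ × ℤ)} {A B : Type} {F : ℕ → A → ℤ × ℤ} (x : B → A) {S : Set B}
    (hS : Free 𝒪 (fun j t => F j (x t)) S) : Free 𝒪 F (x '' S) := by
  intro φ hφ
  obtain ⟨ψ, hψ1, hψ2⟩ : ∃ ψ : List B, (∀ b ∈ ψ, b ∈ S) ∧ ψ.map x = φ := by
    induction φ with
    | nil => exact ⟨[], fun b hb => absurd hb List.not_mem_nil, rfl⟩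
    | cons a φ ih =>
      obtain ⟨ψ, h1, h2⟩ := ih fun b hb => hφ b (List.mem_cons_of_mem _ hb)
      obtain ⟨b, hb, hba⟩ := hφ a List.mem_cons_self
      refine ⟨b :: ψ, fun c hc => ?_, by rw [List.map_cons, h2, hba]⟩
      rcases List.mem_cons.1 hc with rfl | hc
      · exact hb
      · exact h1 c hc
  rw [← hψ2]
  exact L_image x ψ ∅ (hS ψ hψ1)

/-- **free sets with clusters near most points of every array** -/
theorem main_abs {M : Type} [DecidableEq M] [Nonempty M] {op : M → M → M}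
    (hassoc : ∀ a b c, op (op a b) c = op a (op b c))
    (hsep : ∀ D K : Finset M, ∃ g, ∀ k ∈ K, op g k ∉ D)
    {𝒪 : Set (ℤ × ℤ)} {F : ℕ → M → ℤ × ℤ} (σ : M → ℤ × ℤ) (hσ : ∀ c, 1 ≤ (σ c).1)
    (hO : ∀ c, ∀ u ∈ 𝒪, comp (σ c) u ∈ 𝒪)
    (hg : ∀ c x, ∀ᶠ j in (U : Filter ℕ), F j (op c x) = comp (σ c) (F j x))
    (K : ℕ → Finset M)
    (hbase : ∀ pos : ℕ → M, ∃ κ : ℕ → M, (∀ t, κ t ∈ K t) ∧ LabX 𝒪 (fun j t => F j (op (pos t) (κ t))))
    (ε : ℝ) (hε : 0 < ε) (hε1 : ε < 1) (k m : ℕ → ℕ) (hk : ∀ j, 1 ≤ k j) (hm : ∀ j, 1 ≤ m j) :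
    ∃ C : ℕ → Finset M, ∀ (V : ℕ → ℕ → M) (P : ℕ → ℕ → ℝ) (s : ℕ → ℕ), (∀ t j, 0 ≤ P t j) →
      (∀ t, ∑ j ∈ range (s t), P t j = 1) →
      ∃ S, Free 𝒪 F S ∧ ∃ᶠ t in atTop, 1 - ε ≤ ∑ j ∈ range (s t), P t j *
        ind (∃ R ⊆ range (k j), (1 - ε) * k j ≤ R.card ∧ ∀ i ∈ R, ∃ E ⊆ C j, E.card = m j ∧
          ∀ c ∈ E, op (V j i) c ∈ S) := by
  classical
  refine clusters hassoc hsep (Φ := Free 𝒪 F) (fun S c hS => hS.shift (hσ c) (hO c) (op c) (hg c)) free_lim K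
    (5 / 18) (by norm_num) ?_ ε hε hε1 k m hk hm
  intro I pos w hw
  obtain ⟨κ, hκ, hlab⟩ := hbase pos
  obtain ⟨S', hS', h⟩ := free_index hlab I id w hw
  refine ⟨(fun t => op (pos t) (κ t)) '' S', free_image (F := F) (fun t => op (pos t) (κ t)) hS', ?_⟩
  have h1 : ∑ t ∈ I, (if t ∈ S' then w t else 0) ≤
      ∑ t ∈ I, w t * ind (Hit op ((fun t => op (pos t) (κ t)) '' S') (pos t) (K t)) := by
    refine sum_le_sum fun t _ => ?_
    split_ifs with ht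
    · rw [ind_pos, mul_one]
      exact ⟨κ t, hκ t, t, ht, rfl⟩
    · exact mul_nonneg (hw t) (ind_nonneg _)
  have h2 : 5 * ∑ t ∈ I, w t ≤ 18 * ∑ t ∈ I, (if t ∈ S' then w t else 0) := by
    simpa only [id] using h
  linarith

end Pool.Agent.U289.NX
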