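import Mathlib

/-! Nested configurations in a semigroup: a family of sets which meets a fixed proportion of all weighted
windows meets almost all of every weight, if the windows are large enough in terms of their indices. -/

set_option autoImplicit false

namespace Pool.Agent.U289.NX

open Finset

variable {M : Type}

/-- the set `S` meets the window `v K` -/
def Hit (op : M → M → M) (S : Set M) (v : M) (K : Finset M) : Prop := ∃ k ∈ K, op v k ∈ S

open Classical in
/-- the indicator of a proposition -/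
noncomputable def ind (Q : Prop) : ℝ := if Q then 1 else 0

theorem ind_pos {Q : Prop} (h : Q) : ind Q = 1 := if_pos h

theorem ind_neg {Q : Prop} (h : ¬ Q) : ind Q = 0 := if_neg h

theorem ind_nonneg (Q : Prop) : 0 ≤ ind Q := by
  by_cases h : Q
  · rw [ind_pos h]; norm_num
  · rw [ind_neg h]

theorem ind_le_one (Q : Prop) : ind Q ≤ 1 := by
  by_cases h : Q
  · rw [ind_pos h]
  · rw [ind_neg h]; norm_num

theorem ind_mono {Q R : Prop} (h : Q → R) : ind Q ≤ ind R := by
  by_cases hQ : Q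
  · rw [ind_pos hQ, ind_pos (h hQ)]
  · rw [ind_neg hQ]; exact ind_nonneg R

theorem ind_congr {Q R : Prop} (h : Q ↔ R) : ind Q = ind R := by rw [propext h]

theorem ind_not (Q : Prop) : ind (¬ Q) = 1 - ind Q := by
  by_cases h : Q
  · rw [ind_pos h, ind_neg (not_not.2 h)]; norm_num
  · rw [ind_neg h, ind_pos h]; norm_num

/-- sums over consecutive blocks -/
theorem sum_blocks (st : ℕ → ℕ) (hst : Monotone st) (f : ℕ → ℝ) (s : ℕ) :
    ∑ t ∈ Ico (st 0) (st s), f t = ∑ j ∈ range s, ∑ t ∈ Ico (st j) (st (j + 1)), f t := by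
  induction s with
  | zero => simp
  | succ s ih =>
    rw [Finset.sum_range_succ, ← ih, Finset.sum_Ico_consecutive f (hst (Nat.zero_le s)) (hst (Nat.le_succ s))]

/-- a finite configuration of windows with the prescribed shapes, with indices starting at `i0`, which every set of
the family meets with weight at most `β` -/
def Conf (op : M → M → M) (Φ : Set M → Prop) (K : ℕ → Finset M) (β : ℝ) (i0 L : ℕ) (pos : ℕ → M) (w : ℕ → ℝ)
    (D : Finset M) : Prop :=
  1 ≤ L ∧ (∀ t, 0 ≤ w t) ∧ ∑ t ∈ Ico i0 (i0 + L), w t = 1 ∧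
    (∀ t ∈ Ico i0 (i0 + L), ∀ k ∈ K t, op (pos t) k ∈ D) ∧
    ∀ S, Φ S → ∑ t ∈ Ico i0 (i0 + L), w t * ind (Hit op S (pos t) (K t)) ≤ β

/-- the negation of the theorem -/
def Neg (op : M → M → M) (Φ : Set M → Prop) (ρ : ℝ) : Prop :=
  ∀ C : ℕ → Finset M, ∃ (v : ℕ → M) (p : ℕ → ℝ) (s : ℕ),
    (∀ j, 0 ≤ p j) ∧ ∑ j ∈ range s, p j = 1 ∧
    ∀ S, Φ S → ∑ j ∈ range s, p j * ind (Hit op S (v j) (C j)) ≤ ρ

theorem conf_succ [DecidableEq M] {op : M → M → M} (hassoc : ∀ a b c, op (op a b) c = op a (op b c))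
    {Φ : Set M → Prop} (hshift : ∀ (S : Set M) (c : M), Φ S → Φ {x | op c x ∈ S}) (K : ℕ → Finset M)
    (ρ β : ℝ) (hβ : 0 ≤ β) (hneg : Neg op Φ ρ)
    (h : ∀ i0, ∃ L pos w D, Conf op Φ K β i0 L pos w D) :
    ∀ i0, ∃ L pos w D, Conf op Φ K (ρ * β) i0 L pos w D := by
  intro i0
  choose L pos w D hC using h
  -- the first indices of the children
  set st : ℕ → ℕ := fun j => Nat.rec i0 (fun _ x => x + L x) j with hst
  have hst0 : st 0 = i0 := rfl
  have hsts : ∀ j, st (j + 1) = st j + L (st j) := fun j => rfl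
  have hmono : StrictMono st := strictMono_nat_of_lt_succ fun j => by
    rw [hsts]
    have := (hC (st j)).1
    omega
  obtain ⟨v, p, s, hp, hp1, hpS⟩ := hneg (fun j => D (st j))
  have hex : ∀ t, ∃ j, t < st (j + 1) := fun t => ⟨t, lt_of_lt_of_le (Nat.lt_succ_self t) (hmono.id_le (t + 1))⟩
  set ch : ℕ → ℕ := fun t => Nat.find (hex t) with hch
  have hch_eq : ∀ t j, t ∈ Ico (st j) (st (j + 1)) → ch t = j := by
    intro t j ht
    rw [Finset.mem_Ico] at ht
    refine le_antisymm (Nat.find_min' _ ht.2) ?_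
    by_contra hlt
    push Not at hlt
    have h3 : t < st (ch t + 1) := Nat.find_spec (hex t)
    have h4 : st (ch t + 1) ≤ st j := hmono.monotone hlt
    omega
  have hchild : ∀ t ∈ Ico i0 (st s), ∃ j < s, t ∈ Ico (st j) (st (j + 1)) := by
    intro t ht
    rw [Finset.mem_Ico] at ht
    have h3 : t < st (ch t + 1) := Nat.find_spec (hex t)
    have hle : st (ch t) ≤ t := by
      rcases Nat.eq_zero_or_pos (ch t) with h0 | h0
      · rw [h0, hst0]; exact ht.1
      · have := Nat.find_min (hex t) (m := ch t - 1) (Nat.sub_lt h0 one_pos)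
        have e1 : ch t - 1 + 1 = ch t := by omega
        rw [not_lt, e1] at this
        exact this
    refine ⟨ch t, ?_, Finset.mem_Ico.2 ⟨hle, h3⟩⟩
    by_contra hlt
    push Not at hlt
    have := hmono.monotone hlt
    omega
  set w' : ℕ → ℝ := fun t => p (ch t) * w (st (ch t)) t with hw'
  set pos' : ℕ → M := fun t => op (v (ch t)) (pos (st (ch t)) t) with hpos'
  set D' : Finset M := (range s).biUnion (fun j => (D (st j)).image (op (v j))) with hD'
  have hi0s : i0 ≤ st s := by
    have := hmono.monotone (Nat.zero_le s)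
    rwa [hst0] at this
  have hLs : i0 + (st s - i0) = st s := by omega
  refine ⟨st s - i0, pos', w', D', ?_, ?_, ?_, ?_, ?_⟩
  · have hs : s ≠ 0 := by
      rintro rfl
      rw [Finset.sum_range_zero] at hp1
      norm_num at hp1
    have := hmono (Nat.pos_of_ne_zero hs)
    rw [hst0] at this
    omega
  · intro t
    exact mul_nonneg (hp _) ((hC _).2.1 t)
  · rw [hLs, ← hst0, sum_blocks st hmono.monotone, ← hp1]
    refine Finset.sum_congr rfl fun j _ => ?_
    have h1 : ∑ t ∈ Ico (st j) (st (j + 1)), w' t = ∑ t ∈ Ico (st j) (st j + L (st j)), p j * w (st j) t := by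
      refine Finset.sum_congr (by rw [hsts]) fun t ht => ?_
      rw [hw']
      simp only
      rw [hch_eq t j (by rw [hsts]; exact ht)]
    rw [h1, ← Finset.mul_sum, (hC (st j)).2.2.1, mul_one]
  · intro t ht k hk
    rw [hLs] at ht
    obtain ⟨j, hj, htj⟩ := hchild t ht
    have h1 := (hC (st j)).2.2.2.1 t (by rw [← hsts]; exact htj) k hk
    rw [hpos']
    simp only
    rw [hch_eq t j htj, hassoc]
    exact mem_biUnion.2 ⟨j, mem_range.2 hj, mem_image_of_mem _ h1⟩
  · intro S hS
    rw [hLs, ← hst0, sum_blocks st hmono.monotone]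
    have h1 : ∀ j ∈ range s, ∑ t ∈ Ico (st j) (st (j + 1)), w' t * ind (Hit op S (pos' t) (K t)) ≤
        β * (p j * ind (Hit op S (v j) (D (st j)))) := by
      intro j _
      have e1 : ∑ t ∈ Ico (st j) (st (j + 1)), w' t * ind (Hit op S (pos' t) (K t)) =
          p j * ∑ t ∈ Ico (st j) (st j + L (st j)), w (st j) t *
            ind (Hit op {x | op (v j) x ∈ S} (pos (st j) t) (K t)) := by
        rw [Finset.mul_sum]
        refine Finset.sum_congr (by rw [hsts]) fun t ht => ?_
        rw [hw', hpos']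
        simp only
        rw [hch_eq t j (by rw [hsts]; exact ht)]
        have h3 : Hit op S (op (v j) (pos (st j) t)) (K t) ↔ Hit op {x | op (v j) x ∈ S} (pos (st j) t) (K t) := by
          unfold Hit
          simp only [hassoc, Set.mem_ofPred_eq]
        rw [ind_congr h3]
        ring
      rw [e1]
      by_cases hH : Hit op S (v j) (D (st j))
      · rw [ind_pos hH, mul_one, mul_comm β]
        exact mul_le_mul_of_nonneg_left ((hC (st j)).2.2.2.2 _ (hshift S (v j) hS)) (hp j)
      · rw [ind_neg hH, mul_zero, mul_zero]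
        have h2 : ∑ t ∈ Ico (st j) (st j + L (st j)), w (st j) t *
            ind (Hit op {x | op (v j) x ∈ S} (pos (st j) t) (K t)) = 0 := by
          refine Finset.sum_eq_zero fun t ht => ?_
          rw [ind_neg, mul_zero]
          rintro ⟨k, hk, hkS⟩
          exact hH ⟨_, (hC (st j)).2.2.2.1 t ht k hk, hkS⟩
        rw [h2, mul_zero]
    calc _ ≤ ∑ j ∈ range s, β * (p j * ind (Hit op S (v j) (D (st j)))) := Finset.sum_le_sum h1
      _ = β * ∑ j ∈ range s, p j * ind (Hit op S (v j) (D (st j))) := by rw [Finset.mul_sum]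
      _ ≤ β * ρ := mul_le_mul_of_nonneg_left (hpS S hS) hβ
      _ = ρ * β := mul_comm _ _

/-- **nested configurations** -/
theorem nest [DecidableEq M] [Nonempty M] {op : M → M → M} (hassoc : ∀ a b c, op (op a b) c = op a (op b c))
    {Φ : Set M → Prop} (hshift : ∀ (S : Set M) (c : M), Φ S → Φ {x | op c x ∈ S}) (K : ℕ → Finset M)
    (δ : ℝ) (hδ : 0 < δ)
    (hbase : ∀ (I : Finset ℕ) (pos : ℕ → M) (w : ℕ → ℝ), (∀ t, 0 ≤ w t) → ∃ S, Φ S ∧
      δ * ∑ t ∈ I, w t ≤ ∑ t ∈ I, w t * ind (Hit op S (pos t) (K t)))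
    (ρ : ℝ) (hρ0 : 0 ≤ ρ) (hρ : ρ < 1) :
    ∃ C : ℕ → Finset M, ∀ (v : ℕ → M) (p : ℕ → ℝ) (s : ℕ), (∀ j, 0 ≤ p j) → ∑ j ∈ range s, p j = 1 →
      ∃ S, Φ S ∧ ρ < ∑ j ∈ range s, p j * ind (Hit op S (v j) (C j)) := by
  by_contra hcon
  have hneg : Neg op Φ ρ := by
    intro C
    by_contra hC
    apply hcon
    refine ⟨C, fun v p s hp hp1 => ?_⟩
    by_contra hS
    apply hC
    refine ⟨v, p, s, hp, hp1, fun S hS1 => ?_⟩
    by_contra hlt
    exact hS ⟨S, hS1, not_le.1 hlt⟩
  obtain ⟨e⟩ := ‹Nonempty M›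
  have h0 : ∀ i0, ∃ L pos w D, Conf op Φ K 1 i0 L pos w D := by
    intro i0
    refine ⟨1, fun _ => e, fun _ => 1, (K i0).image (op e), le_rfl, fun _ => zero_le_one, ?_, ?_, ?_⟩
    · rw [sum_const, Nat.card_Ico]
      simp
    · intro t ht k hk
      rw [mem_Ico] at ht
      have : t = i0 := by omega
      subst this
      exact mem_image_of_mem _ hk
    · intro S _
      rw [Nat.Ico_succ_singleton, sum_singleton, one_mul]
      exact ind_le_one _
  have hd : ∀ d : ℕ, ∀ i0, ∃ L pos w D, Conf op Φ K (ρ ^ d) i0 L pos w D := by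
    intro d
    induction d with
    | zero => simpa using h0
    | succ d ih =>
      intro i0
      have := conf_succ hassoc hshift K ρ (ρ ^ d) (pow_nonneg hρ0 d) hneg ih i0
      rwa [← pow_succ'] at this
  obtain ⟨d, hdd⟩ := exists_pow_lt_of_lt_one hδ hρ
  obtain ⟨L, pos, w, D, hC⟩ := hd d 0
  obtain ⟨S, hS, hS2⟩ := hbase (Ico 0 (0 + L)) pos w hC.2.1
  rw [hC.2.2.1, mul_one] at hS2
  have := hC.2.2.2.2 S hS
  linarith

end Pool.Agent.U289.NX
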