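import Pool.Agent.Y827.HN.Pat
import Pool.Agent.U289.KT.Windows

/-! All patterns at the scales `A N`, `N` along the ultrafilter, the other forms of a given set being composite;
substitutions. -/

set_option autoImplicit false

namespace Pool.Agent.U289.NX

open Finset Filter
open Pool.Agent.Y827.HN
open Pool.Agent.U289.KT (U ev_ge L real choose_one exists_miss prodlt Lab)

/-- the set `F` of linear forms has all the patterns at the scales `A N`, `N` along the ultrafilter, where moreover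
any finitely many forms of the set `𝒪` are composite -/
def P (𝒪 : Set (ℤ × ℤ)) (F : Finset (ℤ × ℤ)) : Prop :=
  ∀ (l : ℕ) (E : Finset (ℤ × ℤ)), (∀ u ∈ E, u ∈ 𝒪) → ∃ A C : ℕ, 1 ≤ A ∧
    ∀ᶠ N in (U : Filter ℕ), AllP E l C (A * N) F

theorem P_anti {𝒪 : Set (ℤ × ℤ)} {F F' : Finset (ℤ × ℤ)} (h : F' ⊆ F) (hF : P 𝒪 F) : P 𝒪 F' := by
  intro l E hE
  obtain ⟨A, C, hA, hC⟩ := hF l E hE
  refine ⟨A, C, hA, ?_⟩
  filter_upwards [hC] with N hN
  exact AllP_anti h hN

/-- the coloured theorem along the ultrafilter -/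
theorem hitP (𝒪 : Set (ℤ × ℤ)) (h𝒪 : ∀ u ∈ 𝒪, 0 < u.1 ∧ IsCoprime u.1 u.2) (T M : ℕ) (hT : 1 ≤ T)
    (hTM : (18 / 5 : ℝ) * M < T) : ∃ K : ℕ, 1 ≤ K ∧
    ∀ x : Fin T → Fin K → ℤ × ℤ,
    Function.Injective (fun y : Fin T × Fin K => x y.1 y.2) →
    (∀ g i, 0 < (x g i).1 ∧ IsCoprime (x g i).1 (x g i).2) →
    (∀ p : ℕ, p.Prime → p ≤ T * K → ∃ r : ℤ, ∀ g i, ¬ (p : ℤ) ∣ (x g i).1 * r + (x g i).2) →
    (∀ g i, x g i ∉ 𝒪) →
    ∃ (S : Finset (Fin T)) (c : Fin T → Fin K), M + 1 ≤ S.card ∧ P 𝒪 (S.image (fun g => x g (c g))) := by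
  classical
  obtain ⟨K, hK, hpat⟩ := patR T M hT hTM
  refine ⟨K, hK, fun x hinj hpos hloc hout => ?_⟩
  -- one choice for every length and every finite set of forms
  have h1 : ∀ z : ℕ × {E : Finset (ℤ × ℤ) // ∀ u ∈ E, u ∈ 𝒪}, ∃ y : Finset (Fin T) × (Fin T → Fin K),
      M + 1 ≤ y.1.card ∧
      ∃ C : ℕ, ∀ᶠ N in (U : Filter ℕ), AllP z.2.1 z.1 C N (y.1.image (fun g => x g (y.2 g))) := by
    intro z
    obtain ⟨C, hC⟩ := hpat x hinj hpos hloc z.2.1 (fun u hu => ⟨(h𝒪 u (z.2.2 u hu)).1, (h𝒪 u (z.2.2 u hu)).2,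
      fun g i h => hout g i (h ▸ z.2.2 u hu)⟩) z.1
    have h2 : ∀ᶠ N in (U : Filter ℕ), ∃ y : Finset (Fin T) × (Fin T → Fin K), M + 1 ≤ y.1.card ∧
        AllP z.2.1 z.1 C N (y.1.image (fun g => x g (y.2 g))) := by
      refine Nat.hyperfilter_le_atTop ?_
      filter_upwards [hC] with N hN
      obtain ⟨S, cc, h3, h4⟩ := hN
      exact ⟨(S, cc), h3, h4⟩
    obtain ⟨y, hy⟩ := choose_one _ h2
    obtain ⟨N, hN⟩ := hy.exists
    refine ⟨y, hN.1, C, ?_⟩
    filter_upwards [hy] with N hN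
    exact hN.2
  choose y hy1 hy2 using h1
  obtain ⟨y0, hy0⟩ : ∃ y0, ∀ z : ℕ × {E : Finset (ℤ × ℤ) // ∀ u ∈ E, u ∈ 𝒪}, ∃ z', z.1 ≤ z'.1 ∧ z.2.1 ⊆ z'.2.1 ∧
      y z' = y0 := by
    by_contra hcon
    push Not at hcon
    choose lb hlb using hcon
    obtain ⟨B, hB⟩ : ∃ B, ∀ z, (lb z).1 ≤ B :=
      ⟨univ.sup (fun z => (lb z).1), fun z => Finset.le_sup (f := fun z => (lb z).1) (mem_univ z)⟩
    set z' : ℕ × {E : Finset (ℤ × ℤ) // ∀ u ∈ E, u ∈ 𝒪} :=
      (B, ⟨univ.biUnion (fun z => (lb z).2.1), fun u hu => by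
        obtain ⟨z, -, hz⟩ := mem_biUnion.1 hu
        exact (lb z).2.2 u hz⟩) with hz'
    exact hlb (y z') z' (hB _) (subset_biUnion_of_mem (fun z => (lb z).2.1) (mem_univ (y z'))) rfl
  refine ⟨y0.1, y0.2, ?_, ?_⟩
  · obtain ⟨z', -, -, hz'⟩ := hy0 (0, ⟨∅, fun u hu => absurd hu (notMem_empty u)⟩)
    rw [← hz']
    exact hy1 z'
  · intro l E hE
    obtain ⟨z', hl, hE', hz'⟩ := hy0 (l, ⟨E, hE⟩)
    obtain ⟨C, hC⟩ := hy2 z'
    refine ⟨1, C, le_rfl, ?_⟩
    filter_upwards [hC] with N hN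
    rw [one_mul, ← hz']
    exact AllP_len hE' hl hN

/-- the composition of the linear form `f` with `n ↦ σ.1 n + σ.2` -/
def comp (σ f : ℤ × ℤ) : ℤ × ℤ := (f.1 * σ.1, f.1 * σ.2 + f.2)

theorem comp_inj {σ : ℤ × ℤ} (hσ : 1 ≤ σ.1) : Function.Injective (comp σ) := by
  rintro ⟨a, b⟩ ⟨c, d⟩ h
  simp only [comp, Prod.mk.injEq] at h
  have h1 : a = c := mul_right_cancel₀ (by omega : σ.1 ≠ 0) h.1
  subst h1
  have h2 : b = d := by linarith [h.2]
  rw [h2]

theorem log_pow_le (C B : ℕ) : ∀ᶠ N : ℕ in atTop, (B : ℝ) * (Real.log N) ^ C ≤ N := by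
  have h1 : Tendsto (fun x : ℝ => (Real.log x) ^ C / x) atTop (nhds 0) :=
    (Real.isLittleO_pow_log_id_atTop (n := C)).tendsto_div_nhds_zero
  have h2 : Tendsto (fun N : ℕ => (Real.log (N : ℝ)) ^ C / (N : ℝ)) atTop (nhds 0) :=
    h1.comp tendsto_natCast_atTop_atTop
  have hB : (0 : ℝ) < (B : ℝ) + 1 := by positivity
  filter_upwards [h2.eventually (gt_mem_nhds (show (0 : ℝ) < 1 / ((B : ℝ) + 1) by positivity)),
    eventually_ge_atTop 1] with N h3 hN
  have hN0 : (0 : ℝ) < N := by exact_mod_cast hN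
  have hl : 0 ≤ Real.log (N : ℝ) := Real.log_nonneg (by exact_mod_cast hN)
  rw [div_lt_div_iff₀ hN0 hB] at h3
  have h4 : 0 ≤ (Real.log (N : ℝ)) ^ C := pow_nonneg hl C
  nlinarith

theorem log_ge (B : ℝ) : ∀ᶠ N : ℕ in atTop, B ≤ Real.log N :=
  (Real.tendsto_log_atTop.comp tendsto_natCast_atTop_atTop).eventually_ge_atTop B

open Classical in
/-- substitution -/
theorem QX_comp {σ : ℤ × ℤ} (hσ : 1 ≤ σ.1) (l C : ℕ) : ∀ᶠ N : ℕ in atTop, ∀ 𝒜 ℬ : Finset (ℤ × ℤ),
    QX l C N (𝒜.image (comp σ)) (ℬ.image (comp σ)) →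
      QX l (C + 1) ((σ.1.toNat + 1) * N) 𝒜 ℬ := by
  obtain ⟨a, ha⟩ : ∃ a : ℕ, a = σ.1.toNat := ⟨_, rfl⟩
  have haz : (a : ℤ) = σ.1 := by rw [ha]; exact Int.toNat_of_nonneg (by omega)
  have ha1 : 1 ≤ a := by omega
  rw [← ha]
  obtain ⟨b, hb⟩ : ∃ b : ℕ, b = σ.2.natAbs := ⟨_, rfl⟩
  have hb1 : -(b : ℤ) ≤ σ.2 := by omega
  have hb2 : σ.2 ≤ b := by omega
  obtain ⟨n0, hn0⟩ : ∃ n0 : ℕ, n0 = b + l + 1 := ⟨_, rfl⟩
  filter_upwards [log_pow_le C (2 * n0), log_ge (2 * (a + 1)), eventually_ge_atTop (b + 3)] with N h1 h2 hN3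
  intro 𝒜 ℬ h
  obtain ⟨d, hd1, hd2, hd3⟩ := h
  have hN0 : (0 : ℝ) < N := by
    have : 0 < N := by omega
    exact_mod_cast this
  have ht1 : 1 ≤ Real.log N := by
    have : (0 : ℝ) ≤ a := Nat.cast_nonneg a
    linarith
  have hlog : Real.log N ≤ Real.log (((a + 1) * N : ℕ) : ℝ) := by
    apply Real.log_le_log hN0
    have : N ≤ (a + 1) * N := Nat.le_mul_of_pos_left N (by omega)
    exact_mod_cast this
  set t := Real.log N with ht
  have ht0 : 0 < t := by linarith
  have htC : 0 < t ^ C := by positivity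
  refine ⟨a * d, Nat.mul_pos (by omega) (by omega), ?_, ?_⟩
  · push_cast
    calc (a : ℝ) * d ≤ t * t ^ C := by
          refine mul_le_mul ?_ hd2 (Nat.cast_nonneg _) (by linarith)
          have : (0 : ℝ) ≤ a := Nat.cast_nonneg a
          linarith
      _ = t ^ (C + 1) := by ring
      _ ≤ _ := by
          have e : (((a + 1) * N : ℕ) : ℝ) = ((a : ℝ) + 1) * N := by push_cast; ring
          rw [← e]
          exact pow_le_pow_left₀ (by linarith) hlog _
  · -- the count
    have hcnt : (cntX (𝒜.image (comp σ)) (ℬ.image (comp σ)) l d N : ℝ) ≤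
        n0 + (cntX 𝒜 ℬ l (a * d) ((a + 1) * N) : ℝ) := by
      have h3 : cntX (𝒜.image (comp σ)) (ℬ.image (comp σ)) l d N ≤
          n0 + cntX 𝒜 ℬ l (a * d) ((a + 1) * N) := by
        unfold cntX
        set X := (Icc (l + 1) N).filter (fun n : ℕ => ∀ j < l,
          (∀ f ∈ 𝒜.image (comp σ), (f.1 * ((n + j * d : ℕ) : ℤ) + f.2).toNat.Prime) ∧
          ∀ f ∈ ℬ.image (comp σ), ¬ (f.1 * ((n + j * d : ℕ) : ℤ) + f.2).toNat.Prime) with hX
        have h4 : X ⊆ (X.filter (fun n => n < n0)) ∪ X.filter (fun n => ¬ n < n0) := by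
          rw [filter_union_filter_not_eq]
        have h5 : (X.filter (fun n => n < n0)).card ≤ n0 := by
          calc (X.filter (fun n => n < n0)).card ≤ (range n0).card := by
                apply card_le_card
                intro n hn
                exact mem_range.2 (mem_filter.1 hn).2
            _ = n0 := card_range n0
        have h6 : (X.filter (fun n => ¬ n < n0)).card ≤ ((Icc (l + 1) ((a + 1) * N)).filter
            (fun n : ℕ => ∀ j < l, (∀ f ∈ 𝒜, (f.1 * ((n + j * (a * d) : ℕ) : ℤ) + f.2).toNat.Prime) ∧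
              ∀ f ∈ ℬ, ¬ (f.1 * ((n + j * (a * d) : ℕ) : ℤ) + f.2).toNat.Prime)).card := by
          apply card_le_card_of_injOn (fun n : ℕ => ((a : ℤ) * n + σ.2).toNat)
          · intro n hn
            rw [mem_coe, mem_filter] at hn
            obtain ⟨hn1, hn2⟩ := hn
            rw [not_lt] at hn2
            rw [hX, mem_filter, mem_Icc] at hn1
            have hval : 0 ≤ (a : ℤ) * n + σ.2 := by nlinarith
            have hcast : ((((a : ℤ) * n + σ.2).toNat : ℕ) : ℤ) = (a : ℤ) * n + σ.2 :=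
              Int.toNat_of_nonneg hval
            rw [mem_coe, mem_filter, mem_Icc]
            have hnN : (n : ℤ) ≤ N := by exact_mod_cast hn1.1.2
            have hnn : (n0 : ℤ) ≤ n := by exact_mod_cast hn2
            have han : (n : ℤ) ≤ a * n := by
              have : (1 : ℤ) * n ≤ a * n := mul_le_mul_of_nonneg_right (by exact_mod_cast ha1) (by positivity)
              linarith
            have haN : (a : ℤ) * n ≤ a * N := mul_le_mul_of_nonneg_left hnN (by positivity)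
            have hN3' : (b : ℤ) + 3 ≤ N := by exact_mod_cast hN3
            refine ⟨⟨?_, ?_⟩, fun j hj => ?_⟩
            · zify
              rw [hcast]
              have : (n0 : ℤ) = b + l + 1 := by rw [hn0]; push_cast; ring
              linarith
            · zify
              rw [hcast]
              push_cast
              nlinarith
            · obtain ⟨g1, g2⟩ := hn1.2 j hj
              have e : ∀ f : ℤ × ℤ, f.1 * (((((a : ℤ) * n + σ.2).toNat + j * (a * d) : ℕ)) : ℤ) + f.2 =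
                  (comp σ f).1 * ((n + j * d : ℕ) : ℤ) + (comp σ f).2 := by
                intro f
                push_cast
                rw [hcast]
                simp only [comp]
                rw [← haz]
                ring
              refine ⟨fun f hf => ?_, fun f hf => ?_⟩
              · rw [e f]
                exact g1 _ (mem_image_of_mem _ hf)
              · rw [e f]
                exact g2 _ (mem_image_of_mem _ hf)
          · intro n hn n' hn' hnn
            rw [mem_coe, mem_filter] at hn hn'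
            have h7 : 0 ≤ (a : ℤ) * n + σ.2 := by
              have := hn.2
              rw [not_lt] at this
              have h9 : (n0 : ℤ) ≤ n := by exact_mod_cast this
              nlinarith
            have h8 : 0 ≤ (a : ℤ) * n' + σ.2 := by
              have := hn'.2
              rw [not_lt] at this
              have h9 : (n0 : ℤ) ≤ n' := by exact_mod_cast this
              nlinarith
            simp only at hnn
            have h9 : (a : ℤ) * n + σ.2 = (a : ℤ) * n' + σ.2 := by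
              have h10 : ((((a : ℤ) * n + σ.2).toNat : ℕ) : ℤ) = ((((a : ℤ) * n' + σ.2).toNat : ℕ) : ℤ) := by
                rw [hnn]
              rwa [Int.toNat_of_nonneg h7, Int.toNat_of_nonneg h8] at h10
            have h10 : (a : ℤ) * n = a * n' := by linarith
            have h11 := mul_left_cancel₀ (show (a : ℤ) ≠ 0 by omega) h10
            exact_mod_cast h11
        calc X.card ≤ _ := card_le_card h4
          _ ≤ _ := card_union_le _ _
          _ ≤ _ := Nat.add_le_add h5 h6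
      exact_mod_cast h3
    have hmain : (((a + 1) * N : ℕ) : ℝ) / (Real.log (((a + 1) * N : ℕ) : ℝ)) ^ (C + 1) ≤
        N / t ^ C - n0 := by
      have h4 : (((a + 1) * N : ℕ) : ℝ) / (Real.log (((a + 1) * N : ℕ) : ℝ)) ^ (C + 1) ≤
          (((a + 1) * N : ℕ) : ℝ) / t ^ (C + 1) := by
        apply div_le_div_of_nonneg_left (Nat.cast_nonneg _) (by positivity)
        exact pow_le_pow_left₀ (by linarith) hlog _
      have h5 : (((a + 1) * N : ℕ) : ℝ) / t ^ (C + 1) ≤ N / t ^ C / 2 := by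
        rw [div_le_iff₀ (by positivity)]
        have e : (N : ℝ) / t ^ C / 2 * t ^ (C + 1) = N * t / 2 := by
          rw [pow_succ]
          field_simp
        rw [e]
        push_cast
        nlinarith
      have h6 : (n0 : ℝ) ≤ N / t ^ C / 2 := by
        rw [div_div, le_div_iff₀ (by positivity)]
        push_cast at h1
        linarith
      linarith
    push_cast at hmain ⊢
    linarith

open Classical in
theorem AllP_comp {σ : ℤ × ℤ} (hσ : 1 ≤ σ.1) (l C : ℕ) : ∀ᶠ N : ℕ in atTop, ∀ E F : Finset (ℤ × ℤ),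
    AllP (E.image (comp σ)) l C N (F.image (comp σ)) → AllP E l (C + 1) ((σ.1.toNat + 1) * N) F := by
  filter_upwards [QX_comp hσ l C] with N hN E F hF A hA
  apply hN
  have h := hF (A.image (comp σ)) (image_subset_image hA)
  have e : ((F \ A) ∪ E).image (comp σ) = (F.image (comp σ) \ A.image (comp σ)) ∪ E.image (comp σ) := by
    rw [image_union, image_sdiff _ _ (comp_inj hσ)]
  rw [e]
  exact h

/-- substitution -/
theorem P_comp {σ : ℤ × ℤ} (hσ : 1 ≤ σ.1) {𝒪 : Set (ℤ × ℤ)} (hO : ∀ u ∈ 𝒪, comp σ u ∈ 𝒪) {F : Finset (ℤ × ℤ)}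
    (h : P 𝒪 (F.image (comp σ))) : P 𝒪 F := by
  intro l E hE
  obtain ⟨A, C, hA, hC⟩ := h l (E.image (comp σ)) (fun u hu => by
    obtain ⟨v, hv, rfl⟩ := mem_image.1 hu
    exact hO v (hE v hv))
  refine ⟨(σ.1.toNat + 1) * A, C + 1, Nat.mul_pos (Nat.succ_pos _) hA, ?_⟩
  have h1 : ∀ᶠ N : ℕ in atTop, ∀ E F : Finset (ℤ × ℤ),
      AllP (E.image (comp σ)) l C (A * N) (F.image (comp σ)) → AllP E l (C + 1) ((σ.1.toNat + 1) * (A * N)) F :=
    (Filter.tendsto_id.const_mul_atTop' (by omega : 0 < A)).eventually (AllP_comp hσ l C)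
  filter_upwards [hC, Nat.hyperfilter_le_atTop h1] with N hN h2
  rw [mul_assoc]
  exact h2 E F hN

/-- larger scales -/
theorem AllP_scale {A A' : ℕ} (hA : 1 ≤ A) (hAA : A ≤ A') (l C : ℕ) : ∀ᶠ N : ℕ in atTop,
    ∀ E F : Finset (ℤ × ℤ), AllP E l C (A * N) F → AllP E l (C + 1) (A' * N) F := by
  filter_upwards [log_ge A', eventually_ge_atTop 3] with N h1 hN3 E F hF B hB
  obtain ⟨d, hd1, hd2, hd3⟩ := hF B hB
  have hA0 : (1 : ℝ) ≤ A := by exact_mod_cast hA
  have hAA' : (A : ℝ) ≤ A' := by exact_mod_cast hAA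
  have hN0 : (3 : ℝ) ≤ N := by exact_mod_cast hN3
  have hl0 : 1 ≤ Real.log N := by linarith
  have hl1 : Real.log N ≤ Real.log ((A * N : ℕ) : ℝ) := by
    apply Real.log_le_log (by linarith)
    push_cast
    nlinarith
  have hl2 : Real.log ((A * N : ℕ) : ℝ) ≤ Real.log ((A' * N : ℕ) : ℝ) := by
    apply Real.log_le_log
    · push_cast
      positivity
    · push_cast
      nlinarith
  set s := Real.log ((A * N : ℕ) : ℝ) with hs
  set t := Real.log ((A' * N : ℕ) : ℝ) with ht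
  have hs1 : 1 ≤ s := by linarith
  have ht1 : 1 ≤ t := by linarith
  refine ⟨d, hd1, ?_, ?_⟩
  · calc (d : ℝ) ≤ s ^ C := hd2
      _ ≤ t ^ C := pow_le_pow_left₀ (by linarith) hl2 _
      _ ≤ t ^ (C + 1) := pow_le_pow_right₀ ht1 (Nat.le_succ C)
  · have h2 : (cntX B ((F \ B) ∪ E) l d (A * N) : ℝ) ≤ cntX B ((F \ B) ∪ E) l d (A' * N) := by
      rw [Nat.cast_le]
      unfold cntX
      apply card_le_card
      intro n hn
      rw [mem_filter, mem_Icc] at hn ⊢
      exact ⟨⟨hn.1.1, hn.1.2.trans (Nat.mul_le_mul_right _ hAA)⟩, hn.2⟩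
    refine le_trans ?_ (hd3.trans h2)
    rw [div_le_div_iff₀ (by positivity) (by positivity)]
    have h3 : s ^ C ≤ t ^ C := pow_le_pow_left₀ (by linarith) hl2 _
    have h4 : (A' : ℝ) ≤ t := by linarith
    have h5 : (0 : ℝ) < t ^ C := by positivity
    calc ((A' * N : ℕ) : ℝ) * s ^ C ≤ ((A' * N : ℕ) : ℝ) * t ^ C :=
          mul_le_mul_of_nonneg_left h3 (Nat.cast_nonneg _)
      _ = (A' * t ^ C) * N := by push_cast; ring
      _ ≤ (t * t ^ C) * N := by
          refine mul_le_mul_of_nonneg_right ?_ (by linarith)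
          exact mul_le_mul_of_nonneg_right h4 h5.le
      _ ≤ A * ((t * t ^ C) * N) := le_mul_of_one_le_left (by positivity) hA0
      _ = ((A * N : ℕ) : ℝ) * t ^ (C + 1) := by push_cast; ring

end Pool.Agent.U289.NX
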